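import Mathlib

set_option autoImplicit false

namespace Pool.Agent.MP923662

/-- Parametrisation of pairs with `a + b ∣ a * b`. -/
theorem param {a b : ℕ} (ha : 0 < a) (hb : 0 < b) (h : a + b ∣ a * b) :
    ∃ k m n : ℕ, 0 < k ∧ 0 < m ∧ 0 < n ∧ Nat.Coprime m n ∧
      a = k * m * (m + n) ∧ b = k * n * (m + n) := by
  obtain ⟨g, m, n, hg, hmn, rfl, rfl⟩ := Nat.exists_coprime' (m := a) (n := b)
    (Nat.gcd_pos_of_pos_left _ ha)
  have hm : 0 < m := Nat.pos_of_mul_pos_right ha
  have hn : 0 < n := Nat.pos_of_mul_pos_right hb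
  have hc : Nat.Coprime (m + n) (m * n) := by
    apply Nat.Coprime.mul_right
    · simpa using hmn.symm
    · simpa using hmn
  have h1 : m + n ∣ g * (m * n) := by
    have h2 : (m + n) * g ∣ (g * (m * n)) * g := by
      have e1 : m * g + n * g = (m + n) * g := by ring
      have e2 : m * g * (n * g) = (g * (m * n)) * g := by ring
      rw [← e1, ← e2]; exact h
    exact Nat.dvd_of_mul_dvd_mul_right hg h2
  have h3 : m + n ∣ g := hc.dvd_of_dvd_mul_right h1
  obtain ⟨k, rfl⟩ := h3
  have hk : 0 < k := Nat.pos_of_mul_pos_left hg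
  refine ⟨k, m, n, hk, hm, hn, hmn, by ring, by ring⟩

/-- Type 1 : `a` odd, `b = 2 b'` with `b'` odd. -/
theorem type_one {a b : ℕ} (hb : Odd b) (ha : Odd a)
    (h : a + 2 * b ∣ a * (2 * b)) :
    ∃ k n u : ℕ, 0 < k ∧ 0 < n ∧ 2 * n < u ∧ b = k * n * u ∧ a = k * u * (u - 2 * n) := by
  obtain ⟨k, m, n, hk, hm, hn, hmn, h1, h2⟩ := param ha.pos (by have := hb.pos; omega) h
  have hsum : Odd (m + n) := by
    rw [h1] at ha
    exact Nat.odd_mul.1 ha |>.2
  have hmo : Odd m := by
    rw [h1] at ha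
    exact (Nat.odd_mul.1 (Nat.odd_mul.1 ha).1).2
  have hne : Even n := by
    rw [Nat.odd_add] at hsum
    exact hsum.1 hmo
  obtain ⟨n₁, rfl⟩ := hne
  refine ⟨k, n₁, m + (n₁ + n₁), hk, by omega, by omega, ?_, ?_⟩
  · have : 2 * b = 2 * (k * n₁ * (m + (n₁ + n₁))) := by rw [h2]; ring
    omega
  · have : m + (n₁ + n₁) - 2 * n₁ = m := by omega
    rw [this, h1]; ring

/-- Type 2 : `2a'`, `2b'` with `a'`, `b'` odd and different. -/
theorem type_two {a b : ℕ} (hb : Odd b) (ha : Odd a) (hab : a ≠ b)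
    (h : 2 * a + 2 * b ∣ 2 * a * (2 * b)) :
    ∃ k n u : ℕ, 0 < k ∧ 0 < n ∧ 1 < u ∧ n < 2 * u ∧ b = k * n * u ∧
      a = k * u * (2 * u - n) := by
  obtain ⟨k, m, n, hk, hm, hn, hmn, h1, h2⟩ :=
    param (by have := ha.pos; omega) (by have := hb.pos; omega) h
  have hev : Even (m + n) := by
    by_contra hodd
    rw [Nat.not_even_iff_odd] at hodd
    -- one of m, n is even
    rcases Nat.even_or_odd m with hme | hmo
    · have hno : Odd n := by
        rw [add_comm, Nat.odd_add] at hodd; exact hodd.2 hme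
      obtain ⟨m', rfl⟩ := hme
      -- 2 * b = k * n * (m+n) so k even; then 2a = k * 2m' ... divisible by 4
      have hke : Even k := by
        have : Even (k * n * (m' + m' + n)) := ⟨b, by rw [← h2]; ring⟩
        rcases Nat.even_mul.1 this with h3 | h3
        · rcases Nat.even_mul.1 h3 with h4 | h4
          · exact h4
          · exact absurd h4 (Nat.not_even_iff_odd.2 hno)
        · exact absurd h3 (Nat.not_even_iff_odd.2 hodd)
      obtain ⟨k', rfl⟩ := hke
      have : a = 2 * (k' * m' * (m' + m' + n)) := by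
        have : 2 * a = 2 * (2 * (k' * m' * (m' + m' + n))) := by rw [h1]; ring
        omega
      rw [this] at ha
      exact absurd ha (by simp)
    · have hne : Even n := (Nat.odd_add.1 hodd).1 hmo
      obtain ⟨n', rfl⟩ := hne
      have hke : Even k := by
        have : Even (k * m * (m + (n' + n'))) := ⟨a, by rw [← h1]; ring⟩
        rcases Nat.even_mul.1 this with h3 | h3
        · rcases Nat.even_mul.1 h3 with h4 | h4
          · exact h4
          · exact absurd h4 (Nat.not_even_iff_odd.2 hmo)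
        · exact absurd h3 (Nat.not_even_iff_odd.2 hodd)
      obtain ⟨k', rfl⟩ := hke
      have : b = 2 * (k' * n' * (m + (n' + n'))) := by
        have : 2 * b = 2 * (2 * (k' * n' * (m + (n' + n')))) := by rw [h2]; ring
        omega
      rw [this] at hb
      exact absurd hb (by simp)
  obtain ⟨u, hu⟩ := hev
  have hmn' : m ≠ n := by
    rintro rfl
    apply hab
    omega
  refine ⟨k, n, u, hk, hn, ?_, by omega, ?_, ?_⟩
  · omega
  · have : 2 * b = 2 * (k * n * u) := by rw [h2, hu]; ring
    omega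
  · have h3 : 2 * u - n = m := by omega
    have : 2 * a = 2 * (k * u * (2 * u - n)) := by rw [h1, h3, hu]; ring
    omega

end Pool.Agent.MP923662
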