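import Pool.Agent.MP_923662_nt.Bounds
import Pool.Agent.MP_923662_nt.Param

set_option autoImplicit false

open Finset

namespace Pool.Agent.MP923662

/-- halves of the extra even numbers -/
noncomputable def EH (Y J N : ℕ) : Finset ℕ :=
  (Icc 1 N).filter (fun b => (N < 4 * b ∧ 2 * b ≤ N) ∧ rough Y b ∧ good Y J 1.0001 b)

theorem rough_dvd {Y a b : ℕ} (h : rough Y b) (hab : a ∣ b) : rough Y a :=
  fun p hp hpa => h p hp (hpa.trans hab)

theorem rough_odd {Y b : ℕ} (hY : 4 ≤ Y) (h : rough Y b) : Odd b := by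
  rw [← Nat.not_even_iff_odd]
  intro he
  have := h 2 Nat.prime_two he.two_dvd
  omega

theorem rough_gt {Y u : ℕ} (h : rough Y u) (hu : 1 < u) : Y < u := by
  obtain ⟨p, hp, hpu⟩ := Nat.exists_prime_and_dvd (n := u) (by omega)
  have := h p hp hpu
  have := Nat.le_of_dvd (by omega) hpu
  omega

theorem exists_scale {j1 J u : ℕ} (h1 : Z j1 < u) (h2 : u ≤ Z J) :
    ∃ j ∈ Finset.Ioc j1 J, Z (j - 1) < u ∧ u ≤ Z j := by
  classical
  have hex : ∃ j, u ≤ Z j := ⟨J, h2⟩
  refine ⟨Nat.find hex, ?_, ?_, Nat.find_spec hex⟩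
  · rw [Finset.mem_Ioc]
    refine ⟨?_, Nat.find_min' hex h2⟩
    by_contra h
    have h3 := Z_mono (not_lt.1 h)
    have h4 := Nat.find_spec hex
    omega
  · have hpos : 0 < Nat.find hex := by
      rw [Nat.find_pos]
      intro h
      have := Z_mono (Nat.zero_le j1)
      omega
    have := Nat.find_min hex (m := Nat.find hex - 1) (by omega)
    omega

/-- The combinatorial construction. -/
theorem comb {j1 J N : ℕ} (hY : 4 ≤ Z j1) (hN : N ≤ Z J) :
    ∃ A : Finset ℕ, A ⊆ Finset.Icc 1 N ∧
      (∀ a ∈ A, ∀ b ∈ A, a ≠ b → ¬ (a + b ∣ a * b)) ∧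
      (N : ℝ) / 2 + ((EH (Z j1) J N).card : ℝ) -
        ∑ j ∈ Finset.Ioc j1 J, ((((Tr (Z j1) J 1.0001 1 2 j N).image (ph 1 2)).card : ℝ) +
          (((Tr (Z j1) J 1.0001 2 1 j N).image (ph 2 1)).card : ℝ)) ≤ (A.card : ℝ) := by
  classical
  set Y := Z j1 with hYdef
  set O : Finset ℕ := (Icc 1 N).filter (fun a => Odd a) with hO
  set Ev : Finset ℕ := (EH Y J N).image (fun b => 2 * b) with hEv
  set A : Finset ℕ := (O ∪ Ev).filter (fun a => ∀ b ∈ Ev, a ≠ b → ¬ (a + b ∣ a * b)) with hA
  set B1 : Finset ℕ := (Finset.Ioc j1 J).biUnion (fun j => (Tr Y J 1.0001 1 2 j N).image (ph 1 2))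
    with hB1
  set B2 : Finset ℕ := (Finset.Ioc j1 J).biUnion (fun j => (Tr Y J 1.0001 2 1 j N).image (ph 2 1))
    with hB2
  refine ⟨A, ?_, ?_, ?_⟩
  · intro a ha
    rw [hA, Finset.mem_filter, Finset.mem_union] at ha
    rcases ha.1 with h | h
    · exact (Finset.mem_filter.1 h).1
    · rw [hEv, Finset.mem_image] at h
      obtain ⟨b, hb, rfl⟩ := h
      unfold EH at hb
      rw [Finset.mem_filter, Finset.mem_Icc] at hb
      rw [Finset.mem_Icc]
      omega
  · intro a ha b hb hab hdiv
    rw [hA, Finset.mem_filter, Finset.mem_union] at ha hb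
    rcases hb.1 with h1 | h1
    · rcases ha.1 with h2 | h2
      · have ho1 := (Finset.mem_filter.1 h1).2
        have ho2 := (Finset.mem_filter.1 h2).2
        have he : Even (a * b) := even_iff_two_dvd.2
          (dvd_trans (even_iff_two_dvd.1 (Odd.add_odd ho2 ho1)) hdiv)
        exact absurd he (Nat.not_even_iff_odd.2 (Odd.mul ho2 ho1))
      · exact hb.2 a h2 (Ne.symm hab) (by rw [add_comm, mul_comm]; exact hdiv)
    · exact ha.2 b h1 hab hdiv
  · -- counting
    have hdisj : Disjoint O Ev := by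
      rw [Finset.disjoint_left]
      intro a h1 h2
      rw [hEv, Finset.mem_image] at h2
      obtain ⟨b, _, rfl⟩ := h2
      exact absurd (Finset.mem_filter.1 h1).2 (by simp)
    have hcardEv : Ev.card = (EH Y J N).card := by
      rw [hEv]
      apply Finset.card_image_of_injective
      intro a b h
      have : 2 * a = 2 * b := h
      omega
    have hcardO : (N : ℝ) / 2 ≤ (O.card : ℝ) := by
      have h1 : (Finset.range ((N + 1) / 2)).image (fun i => 2 * i + 1) ⊆ O := by
        intro a ha
        rw [Finset.mem_image] at ha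
        obtain ⟨i, hi, rfl⟩ := ha
        rw [Finset.mem_range] at hi
        rw [hO, Finset.mem_filter, Finset.mem_Icc]
        exact ⟨by omega, ⟨i, rfl⟩⟩
      have h2 := Finset.card_le_card h1
      rw [Finset.card_image_of_injective _ (by intro a b h; have : 2 * a + 1 = 2 * b + 1 := h; omega),
        Finset.card_range] at h2
      have h3 : N ≤ 2 * O.card := by omega
      have h4 : (N : ℝ) ≤ 2 * (O.card : ℝ) := by exact_mod_cast h3
      linarith
    -- the bad elements
    have hbad : (O ∪ Ev).filter (fun a => ¬ ∀ b ∈ Ev, a ≠ b → ¬ (a + b ∣ a * b)) ⊆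
        B1 ∪ B2.image (fun a => 2 * a) := by
      intro a ha
      rw [Finset.mem_filter, Finset.mem_union] at ha
      obtain ⟨haU, hbad⟩ := ha
      push Not at hbad
      obtain ⟨b, hb, hab, hdiv⟩ := hbad
      rw [hEv, Finset.mem_image] at hb
      obtain ⟨b', hb', rfl⟩ := hb
      unfold EH at hb'
      rw [Finset.mem_filter, Finset.mem_Icc] at hb'
      obtain ⟨⟨hb1, hbN⟩, ⟨hb4, hb2⟩, hrough, hgood⟩ := hb'
      have hbo := rough_odd hY hrough
      rw [Finset.mem_union]
      rcases haU with haO | haE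
      · left
        rw [hO, Finset.mem_filter, Finset.mem_Icc] at haO
        obtain ⟨k, n, u, hk, hn, hlt, hbe, hae⟩ := type_one hbo haO.2 hdiv
        have hu : 0 < u := by omega
        have hrk : rough Y k := rough_dvd hrough (by rw [hbe, mul_assoc]; exact Dvd.intro _ rfl)
        have hru : rough Y u := rough_dvd hrough (by rw [hbe]; exact Dvd.intro_left _ rfl)
        have hrn : rough Y n := rough_dvd hrough (by
          rw [hbe, mul_comm k n, mul_assoc]; exact Dvd.intro _ rfl)
        have hkle : k ≤ b' := Nat.le_of_dvd (by omega) (by rw [hbe, mul_assoc]; exact Dvd.intro _ rfl)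
        have hule : u ≤ b' := Nat.le_of_dvd (by omega) (by rw [hbe]; exact Dvd.intro_left _ rfl)
        obtain ⟨j, hj, hZ1, hZ2⟩ := exists_scale (j1 := j1) (J := J)
          (rough_gt hru (by omega)) (by omega : u ≤ Z J)
        have h6 : u < 6 * n := by
          by_contra h
          have h7 : 4 * n ≤ u - 2 * n := by omega
          have h8 : k * u * (4 * n) ≤ k * u * (u - 2 * n) := Nat.mul_le_mul_left _ h7
          have h9 : k * u * (4 * n) = 4 * b' := by rw [hbe]; ring
          omega
        rw [hB1, Finset.mem_biUnion]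
        refine ⟨j, hj, ?_⟩
        rw [Finset.mem_image]
        refine ⟨(k, (u, n)), ?_, ?_⟩
        · unfold Tr
          rw [Finset.mem_filter, mem_TS]
          have hmm : mm (k, (u, n)) = b' := by unfold mm; rw [hbe]
          have hph : ph 1 2 (k, (u, n)) = a := by
            unfold ph; rw [hae, one_mul]
          rw [hmm, hph]
          refine ⟨⟨⟨hk, by omega, hrk⟩, ⟨hu, hZ2, hru, hZ1⟩, ?_, hn, hrn, ?_, h6⟩, ⟨hb4, hb2⟩,
            haO.1.2, hgood⟩
          · show n < 2 * u
            omega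
          · show 2 * n < 1 * u
            omega
        · unfold ph; rw [hae, one_mul]
      · right
        rw [hEv, Finset.mem_image] at haE
        obtain ⟨a', ha', rfl⟩ := haE
        unfold EH at ha'
        rw [Finset.mem_filter, Finset.mem_Icc] at ha'
        obtain ⟨⟨ha1, haN⟩, ⟨ha4, ha2⟩, hrougha, hgooda⟩ := ha'
        have hao := rough_odd hY hrougha
        obtain ⟨k, n, u, hk, hn, hu1, hlt, hbe, hae⟩ := type_two hbo hao (by
          rintro rfl; exact hab rfl) hdiv
        have hu : 0 < u := by omega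
        have hrk : rough Y k := rough_dvd hrough (by rw [hbe, mul_assoc]; exact Dvd.intro _ rfl)
        have hru : rough Y u := rough_dvd hrough (by rw [hbe]; exact Dvd.intro_left _ rfl)
        have hrn : rough Y n := rough_dvd hrough (by
          rw [hbe, mul_comm k n, mul_assoc]; exact Dvd.intro _ rfl)
        have hkle : k ≤ b' := Nat.le_of_dvd (by omega) (by rw [hbe, mul_assoc]; exact Dvd.intro _ rfl)
        have hule : u ≤ b' := Nat.le_of_dvd (by omega) (by rw [hbe]; exact Dvd.intro_left _ rfl)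
        obtain ⟨j, hj, hZ1, hZ2⟩ := exists_scale (j1 := j1) (J := J)
          (rough_gt hru (by omega)) (by omega : u ≤ Z J)
        have h6 : u < 6 * n := by
          by_contra h
          have h7 : 2 * n ≤ 2 * u - n := by omega
          have h8 : k * u * (2 * n) ≤ k * u * (2 * u - n) := Nat.mul_le_mul_left _ h7
          have h9 : k * u * (2 * n) = 2 * b' := by rw [hbe]; ring
          omega
        rw [Finset.mem_image]
        refine ⟨a', ?_, rfl⟩
        rw [hB2, Finset.mem_biUnion]
        refine ⟨j, hj, ?_⟩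
        rw [Finset.mem_image]
        refine ⟨(k, (u, n)), ?_, ?_⟩
        · unfold Tr
          rw [Finset.mem_filter, mem_TS]
          have hmm : mm (k, (u, n)) = b' := by unfold mm; rw [hbe]
          have hph : ph 2 1 (k, (u, n)) = a' := by
            unfold ph; rw [hae, one_mul]
          rw [hmm, hph]
          refine ⟨⟨⟨hk, by omega, hrk⟩, ⟨hu, hZ2, hru, hZ1⟩, ?_, hn, hrn, ?_, h6⟩, ⟨hb4, hb2⟩,
            haN, hgood⟩
          · show n < 2 * u
            omega
          · show 1 * n < 2 * u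
            omega
        · unfold ph; rw [hae, one_mul]
    have hsplit := Finset.card_filter_add_card_filter_not (s := O ∪ Ev)
      (fun a => ∀ b ∈ Ev, a ≠ b → ¬ (a + b ∣ a * b))
    have hU : (O ∪ Ev).card = O.card + Ev.card := Finset.card_union_of_disjoint hdisj
    have hb := Finset.card_le_card hbad
    have hb1 : (B1 ∪ B2.image (fun a => 2 * a)).card ≤ B1.card + B2.card :=
      (Finset.card_union_le _ _).trans (Nat.add_le_add_left Finset.card_image_le _)
    have hB1c : B1.card ≤ ∑ j ∈ Finset.Ioc j1 J, ((Tr Y J 1.0001 1 2 j N).image (ph 1 2)).card :=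
      Finset.card_biUnion_le
    have hB2c : B2.card ≤ ∑ j ∈ Finset.Ioc j1 J, ((Tr Y J 1.0001 2 1 j N).image (ph 2 1)).card :=
      Finset.card_biUnion_le
    have hfin : O.card + (EH Y J N).card ≤ A.card +
        (∑ j ∈ Finset.Ioc j1 J, ((Tr Y J 1.0001 1 2 j N).image (ph 1 2)).card +
        ∑ j ∈ Finset.Ioc j1 J, ((Tr Y J 1.0001 2 1 j N).image (ph 2 1)).card) := by
      rw [← hcardEv, ← hU, ← hsplit]
      have : (filter (fun a => ∀ b ∈ Ev, a ≠ b → ¬ (a + b ∣ a * b)) (O ∪ Ev)).card = A.card := rfl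
      omega
    have hfin' : (O.card : ℝ) + ((EH Y J N).card : ℝ) ≤ (A.card : ℝ) +
        (∑ j ∈ Finset.Ioc j1 J, (((Tr Y J 1.0001 1 2 j N).image (ph 1 2)).card : ℝ) +
        ∑ j ∈ Finset.Ioc j1 J, (((Tr Y J 1.0001 2 1 j N).image (ph 2 1)).card : ℝ)) := by
      exact_mod_cast hfin
    rw [Finset.sum_add_distrib]
    linarith

end Pool.Agent.MP923662
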