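import Pool.Agent.MP_923662_nt.Scale

set_option autoImplicit false

open Finset

namespace Pool.Agent.MP923662

/-- all prime factors exceed `Y` -/
def rough (Y n : ℕ) : Prop := ∀ p : ℕ, p.Prime → p ∣ n → Y < p

noncomputable instance (Y n : ℕ) : Decidable (rough Y n) := Classical.propDecidable _

/-- number of prime factors in `(Y, W j]`, with multiplicity -/
def Om (Y j n : ℕ) : ℕ := ∑ p ∈ PI Y (W j), n.factorization p

noncomputable def PP (Y j : ℕ) : ℝ := ∑ p ∈ PI Y (W j), 1 / (p : ℝ)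

noncomputable def hh (Y j u : ℕ) : ℝ := ∏ p ∈ PI Y (W j), (if p ∣ u then 1 + 2 / (p : ℝ) else 1)

theorem PP_nonneg (Y j : ℕ) : 0 ≤ PP Y j := Finset.sum_nonneg fun _ _ => by positivity

theorem hh_nonneg (Y j u : ℕ) : 0 ≤ hh Y j u := by
  unfold hh
  apply Finset.prod_nonneg
  intro p _
  split_ifs <;> positivity

theorem Om_mul (Y j : ℕ) {m n : ℕ} (hm : m ≠ 0) (hn : n ≠ 0) :
    Om Y j (m * n) = Om Y j m + Om Y j n := by
  unfold Om
  rw [Nat.factorization_mul hm hn, ← Finset.sum_add_distrib]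
  rfl

theorem pow_Om_le {z : ℝ} (h0 : 0 ≤ z) (h1 : z ≤ 1) (Y j : ℕ) {n : ℕ} (hn : n ≠ 0) :
    z ^ Om Y j n ≤ ∏ p ∈ PI Y (W j), (if p ∣ n then z else 1) := by
  unfold Om
  rw [← Finset.prod_pow_eq_pow_sum]
  apply Finset.prod_le_prod
  · intro p _; positivity
  · intro p hp
    split_ifs with h
    · have h2 : 1 ≤ n.factorization p :=
        (PI_prime hp).factorization_pos_of_dvd hn h
      calc z ^ n.factorization p ≤ z ^ 1 := pow_le_pow_of_le_one h0 h1 h2
        _ = z := pow_one z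
    · exact pow_le_one₀ h0 h1

theorem unique_sol {p β : ℕ} (hp : p.Prime) (hβ : ¬ p ∣ β) (a : ℕ) :
    ∃ n₀ ∈ range p, ∀ n ∈ range p, (β * n ≡ a [MOD p] ↔ n = n₀) := by
  have : Fact p.Prime := ⟨hp⟩
  have hb : ((β : ℕ) : ZMod p) ≠ 0 := by
    intro h
    exact hβ ((ZMod.natCast_eq_zero_iff β p).1 h)
  refine ⟨((a : ZMod p) * ((β : ZMod p))⁻¹).val, ?_, ?_⟩
  · rw [Finset.mem_range]; exact ZMod.val_lt _
  · intro n hn
    rw [Finset.mem_range] at hn
    rw [← ZMod.natCast_eq_natCast_iff]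
    push_cast
    constructor
    · intro h
      rw [← h]
      have : (β : ZMod p) * n * (β : ZMod p)⁻¹ = n := by field_simp
      rw [this]
      exact (ZMod.val_natCast_of_lt hn).symm
    · intro h
      have h2 : (n : ZMod p) = (a : ZMod p) * ((β : ZMod p))⁻¹ := by
        rw [h]; simp
      rw [h2]; field_simp

/-- the local weights -/
noncomputable def cw (Y u α β : ℕ) (z1 z2 : ℝ) (p n : ℕ) : ℝ :=
  if p ≤ Y then (if p ∣ n then 1 else 0)
  else 1 - (if p ∣ n then z2 else 1) * (if ¬ p ∣ u ∧ β * n ≡ α * u [MOD p] then z1 else 1)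

theorem cw_nonneg {Y u α β : ℕ} {z1 z2 : ℝ} (h1 : 0 ≤ z1 ∧ z1 ≤ 1) (h2 : 0 ≤ z2 ∧ z2 ≤ 1)
    (p n : ℕ) : 0 ≤ cw Y u α β z1 z2 p n := by
  unfold cw
  split_ifs <;> nlinarith [h1.1, h1.2, h2.1, h2.2]

theorem cw_le_one {Y u α β : ℕ} {z1 z2 : ℝ} (h1 : 0 ≤ z1 ∧ z1 ≤ 1) (h2 : 0 ≤ z2 ∧ z2 ≤ 1)
    (p n : ℕ) : cw Y u α β z1 z2 p n ≤ 1 := by
  unfold cw
  split_ifs <;> nlinarith [h1.1, h1.2, h2.1, h2.2, mul_nonneg h1.1 h2.1]

theorem cw_period (Y u α β : ℕ) (z1 z2 : ℝ) (p n : ℕ) :
    cw Y u α β z1 z2 p (n + p) = cw Y u α β z1 z2 p n := by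
  unfold cw
  have e1 : (p ∣ n + p) ↔ p ∣ n := by simp
  have e2 : (β * (n + p) ≡ α * u [MOD p]) ↔ (β * n ≡ α * u [MOD p]) := by
    have : β * (n + p) ≡ β * n [MOD p] := by
      rw [mul_add]
      simp [Nat.ModEq]
    exact ⟨fun h => this.symm.trans h, fun h => this.trans h⟩
  simp only [e1, e2]

theorem dvd_range_iff {p n : ℕ} (hn : n ∈ range p) : p ∣ n ↔ n = 0 := by
  rw [Finset.mem_range] at hn
  constructor
  · intro h
    exact Nat.eq_zero_of_dvd_of_lt h hn
  · rintro rfl; simp

theorem cw_sum_small {Y u α β : ℕ} {z1 z2 : ℝ} {p : ℕ} (hp : p.Prime) (h : p ≤ Y) :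
    ∑ n ∈ range p, cw Y u α β z1 z2 p n = 1 := by
  have : ∀ n ∈ range p, cw Y u α β z1 z2 p n = if n = 0 then 1 else 0 := by
    intro n hn
    unfold cw
    rw [if_pos h]
    simp only [dvd_range_iff hn]
  rw [Finset.sum_congr rfl this, Finset.sum_ite_eq', if_pos (Finset.mem_range.2 hp.pos)]

theorem cw_sum_large {Y u α β : ℕ} {z1 z2 : ℝ} {p : ℕ} (hp : p.Prime) (h : ¬ p ≤ Y)
    (hα : ¬ p ∣ α) (hβ : ¬ p ∣ β) :
    ∑ n ∈ range p, cw Y u α β z1 z2 p n = (1 - z2) + (if p ∣ u then 0 else 1 - z1) := by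
  obtain ⟨n₀, hn₀, hsol⟩ := unique_sol hp hβ (α * u)
  by_cases hu : p ∣ u
  · have : ∀ n ∈ range p, cw Y u α β z1 z2 p n = if n = 0 then 1 - z2 else 0 := by
      intro n hn
      unfold cw
      rw [if_neg h]
      simp only [dvd_range_iff hn, hu, not_true_eq_false, false_and, if_false, mul_one]
      split_ifs <;> ring
    rw [Finset.sum_congr rfl this, Finset.sum_ite_eq', if_pos (Finset.mem_range.2 hp.pos),
      if_pos hu, add_zero]
  · have hne : n₀ ≠ 0 := by
      intro h0
      have h1 := (hsol n₀ hn₀).2 rfl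
      rw [h0, mul_zero] at h1
      have h2 : p ∣ α * u := (Nat.modEq_zero_iff_dvd.1 h1.symm)
      rcases (Nat.Prime.dvd_mul hp).1 h2 with h3 | h3
      · exact hα h3
      · exact hu h3
    have : ∀ n ∈ range p, cw Y u α β z1 z2 p n =
        (if n = 0 then 1 - z2 else 0) + (if n = n₀ then 1 - z1 else 0) := by
      intro n hn
      unfold cw
      rw [if_neg h]
      simp only [dvd_range_iff hn, hu, not_false_eq_true, true_and, hsol n hn]
      by_cases h1 : n = 0
      · subst h1
        have h2 : ¬ (0 = n₀) := fun h => hne h.symm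
        simp only [h2, if_true, if_false]
        ring
      · by_cases h2 : n = n₀
        · simp only [h1, h2, if_true, if_false, hne]; ring
        · simp only [h1, h2, if_false]; ring
    rw [Finset.sum_congr rfl this, Finset.sum_add_distrib, Finset.sum_ite_eq',
      Finset.sum_ite_eq', if_pos (Finset.mem_range.2 hp.pos), if_pos hn₀, if_neg hu]

theorem inner_sum {j : ℕ} (hj : 60 ≤ j) {Y : ℕ} (hY : 4 ≤ Y) {z1 z2 : ℝ}
    (h1 : 0 ≤ z1 ∧ z1 ≤ 1) (h2 : 0 ≤ z2 ∧ z2 ≤ 1) {α β : ℕ}
    (hαβ : (α = 1 ∧ β = 2) ∨ (α = 2 ∧ β = 1)) {u : ℕ} (hu : Z (j - 1) < u) :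
    ∑ n ∈ (range (2 * u)).filter (fun n => 0 < n ∧ rough Y n ∧ β * n < α * u),
      z2 ^ Om Y j n * z1 ^ Om Y j (α * u - β * n) ≤
      6 * u * V (min Y (W j)) * Real.exp (-((2 - z1 - z2) * PP Y j)) * hh Y j u := by
  have hab : ∀ p, Y < p → p.Prime → ¬ p ∣ α ∧ ¬ p ∣ β := by
    intro p hp hpp
    rcases hαβ with ⟨rfl, rfl⟩ | ⟨rfl, rfl⟩
    · exact ⟨fun h => by have := Nat.le_of_dvd (by norm_num) h; omega,
        fun h => by have := Nat.le_of_dvd (by norm_num) h; omega⟩
    · exact ⟨fun h => by have := Nat.le_of_dvd (by norm_num) h; omega,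
        fun h => by have := Nat.le_of_dvd (by norm_num) h; omega⟩
  -- step 1: pointwise bound
  have s1 : ∑ n ∈ (range (2 * u)).filter (fun n => 0 < n ∧ rough Y n ∧ β * n < α * u),
      z2 ^ Om Y j n * z1 ^ Om Y j (α * u - β * n) ≤
      ∑ n ∈ range (2 * u), ∏ p ∈ PI 0 (W j), (1 - cw Y u α β z1 z2 p n) := by
    have s1a : ∑ n ∈ (range (2 * u)).filter (fun n => 0 < n ∧ rough Y n ∧ β * n < α * u),
        z2 ^ Om Y j n * z1 ^ Om Y j (α * u - β * n) ≤
        ∑ n ∈ (range (2 * u)).filter (fun n => 0 < n ∧ rough Y n ∧ β * n < α * u),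
        ∏ p ∈ PI 0 (W j), (1 - cw Y u α β z1 z2 p n) := by
      apply Finset.sum_le_sum
      intro n hn
      simp only [Finset.mem_filter, Finset.mem_range] at hn
      obtain ⟨hn1, hn2, hn3, hn4⟩ := hn
      have hd : α * u - β * n ≠ 0 := by omega
      have e1 := pow_Om_le h2.1 h2.2 Y j (n := n) (by omega)
      have e2 := pow_Om_le h1.1 h1.2 Y j hd
      have e3 : z2 ^ Om Y j n * z1 ^ Om Y j (α * u - β * n) ≤
          ∏ p ∈ PI Y (W j), ((if p ∣ n then z2 else 1) *
            (if p ∣ (α * u - β * n) then z1 else 1)) := by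
        rw [Finset.prod_mul_distrib]
        apply mul_le_mul e1 e2 (pow_nonneg h1.1 _)
        apply Finset.prod_nonneg
        intro p _
        split_ifs
        · exact h2.1
        · norm_num
      refine e3.trans ?_
      have e4 : ∏ p ∈ PI 0 (W j), (1 - cw Y u α β z1 z2 p n) =
          ∏ p ∈ PI Y (W j), (1 - cw Y u α β z1 z2 p n) := by
        symm
        apply Finset.prod_subset
        · intro p hp
          rw [mem_PI] at hp ⊢
          exact ⟨by omega, hp.2⟩
        · intro p hp hp2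
          rw [mem_PI] at hp hp2
          have hpY : p ≤ Y := by
            by_contra h
            exact hp2 ⟨by omega, hp.2⟩
          unfold cw
          rw [if_pos hpY]
          have : ¬ p ∣ n := fun h => by
            have := hn3 p hp.2.2 h
            omega
          rw [if_neg this]; ring
      rw [e4]
      apply Finset.prod_le_prod
      · intro p _
        apply mul_nonneg
        · split_ifs
          · exact h2.1
          · norm_num
        · split_ifs
          · exact h1.1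
          · norm_num
      · intro p hp
        rw [mem_PI] at hp
        unfold cw
        have hpY : ¬ p ≤ Y := by omega
        rw [if_neg hpY]
        have hiff : p ∣ (α * u - β * n) ↔ β * n ≡ α * u [MOD p] :=
          (Nat.modEq_iff_dvd' hn4.le).symm
        rw [sub_sub_cancel]
        apply mul_le_mul_of_nonneg_left
        · by_cases hc : β * n ≡ α * u [MOD p]
          · rw [if_pos (hiff.2 hc)]
            split_ifs
            · exact le_rfl
            · exact h1.2
          · rw [if_neg (fun h => hc (hiff.1 h)), if_neg (fun h => hc h.2)]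
        · split_ifs
          · exact h2.1
          · norm_num
    refine s1a.trans ?_
    apply Finset.sum_le_sum_of_subset_of_nonneg (Finset.filter_subset _ _)
    intro n _ _
    apply Finset.prod_nonneg
    intro p _
    have := cw_le_one (Y := Y) (u := u) (α := α) (β := β) h1 h2 p n
    linarith
  -- step 2: sieve
  have hsum_le : ∀ p ∈ PI 0 (W j), ∑ n ∈ range p, cw Y u α β z1 z2 p n ≤ 2 := by
    intro p hp
    by_cases hpY : p ≤ Y
    · rw [cw_sum_small (PI_prime hp) hpY]; norm_num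
    · have := hab p (by omega) (PI_prime hp)
      rw [cw_sum_large (PI_prime hp) hpY this.1 this.2]
      split_ifs <;> linarith [h1.1, h2.1]
  have s2 := sieve_scale hj (cw Y u α β z1 z2) (fun p _ n => cw_period Y u α β z1 z2 p n)
    (fun p _ n => cw_nonneg h1 h2 p n) (fun p _ n => cw_le_one h1 h2 p n) hsum_le
    (fun p hp hp5 => by rw [cw_sum_small (PI_prime hp) (by omega)]) (2 * u) (by omega)
  -- step 3: bound the product
  have s3 : ∏ p ∈ PI 0 (W j), (1 - (∑ n ∈ range p, cw Y u α β z1 z2 p n) / p) ≤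
      V (min Y (W j)) * Real.exp (-((2 - z1 - z2) * PP Y j)) * hh Y j u := by
    have s3a : ∏ p ∈ PI 0 (W j), (1 - (∑ n ∈ range p, cw Y u α β z1 z2 p n) / p) ≤
        ∏ p ∈ PI 0 (W j), (if p ≤ Y then (1 - 1 / (p : ℝ)) else
          Real.exp (-((2 - z1 - z2) * (1 / p))) * (if p ∣ u then 1 + 2 / (p : ℝ) else 1)) := by
      apply Finset.prod_le_prod
      · intro p hp
        have hp2 : (2 : ℝ) ≤ p := by exact_mod_cast (PI_prime hp).two_le
        have := hsum_le p hp
        have h3 : (∑ n ∈ range p, cw Y u α β z1 z2 p n) / p ≤ 1 := by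
          rw [div_le_one (by linarith)]
          linarith
        linarith
      · intro p hp
        by_cases hpY : p ≤ Y
        · rw [if_pos hpY, cw_sum_small (PI_prime hp) hpY]
        · have hab' := hab p (by omega) (PI_prime hp)
          rw [if_neg hpY, cw_sum_large (PI_prime hp) hpY hab'.1 hab'.2]
          have hp5 : (5 : ℝ) ≤ p := by
            have : 5 ≤ p := by omega
            exact_mod_cast this
          have hx0 : (0 : ℝ) < 1 / p := by positivity
          have hx1 : 1 / (p : ℝ) ≤ 1 / 5 := one_div_le_one_div_of_le (by norm_num) hp5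
          have e1 := Real.add_one_le_exp (-((2 - z1 - z2) * (1 / (p : ℝ))))
          by_cases hpu : p ∣ u
          · rw [if_pos hpu, if_pos hpu]
            have e2 : (2 : ℝ) / p = 2 * (1 / p) := by ring
            rw [e2, add_zero, div_eq_mul_one_div]
            set x : ℝ := 1 / (p : ℝ)
            have e3 : (-((2 - z1 - z2) * x) + 1) * (1 + 2 * x) ≤
                Real.exp (-((2 - z1 - z2) * x)) * (1 + 2 * x) :=
              mul_le_mul_of_nonneg_right e1 (by linarith)
            refine le_trans ?_ e3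
            nlinarith [h1.1, h2.1, mul_nonneg h1.1 hx0.le, mul_nonneg h2.1 hx0.le,
              mul_nonneg h1.1 (mul_nonneg hx0.le hx0.le), mul_nonneg h2.1 (mul_nonneg hx0.le hx0.le)]
          · rw [if_neg hpu, if_neg hpu, mul_one, div_eq_mul_one_div]
            refine le_trans (le_of_eq ?_) e1
            ring
    refine s3a.trans (le_of_eq ?_)
    rw [Finset.prod_ite]
    have f1 : (PI 0 (W j)).filter (fun p => p ≤ Y) = PI 0 (min Y (W j)) := by
      ext p
      simp only [Finset.mem_filter, mem_PI, le_min_iff]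
      tauto
    have f2 : (PI 0 (W j)).filter (fun p => ¬ p ≤ Y) = PI Y (W j) := by
      ext p
      simp only [Finset.mem_filter, mem_PI, not_le]
      constructor
      · rintro ⟨⟨a, b, c⟩, d⟩; exact ⟨d, b, c⟩
      · rintro ⟨a, b, c⟩; exact ⟨⟨by omega, b, c⟩, a⟩
    rw [f1, f2, Finset.prod_mul_distrib, ← Real.exp_sum, Finset.sum_neg_distrib,
      ← Finset.mul_sum, ← mul_assoc]
    rfl
  have hu0 : (0 : ℝ) ≤ u := by positivity
  calc _ ≤ _ := s1
    _ ≤ _ := s2
    _ ≤ 3 * ((2 * u : ℕ) : ℝ) * (V (min Y (W j)) * Real.exp (-((2 - z1 - z2) * PP Y j)) * hh Y j u) :=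
        mul_le_mul_of_nonneg_left s3 (by positivity)
    _ = _ := by push_cast; ring

end Pool.Agent.MP923662
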