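import Pool.Agent.MP_923662_nt.Euler

set_option autoImplicit false

open Finset

namespace Pool.Agent.MP923662

theorem theta_PI (n : ℕ) : ∑ p ∈ PI 0 n, Real.log p ≤ Real.log 4 * n := by
  have h := Chebyshev.theta_le_log4_mul_x (x := (n : ℝ)) (by positivity)
  have h2 : Chebyshev.theta (n : ℝ) = ∑ p ∈ PI 0 n, Real.log p := by
    rw [Chebyshev.theta, Nat.floor_natCast, PI]
  rw [← h2]; exact h

theorem sum_log_div_pow (m : ℕ) :
    ∑ p ∈ PI 0 (2 ^ m), Real.log p / p ≤ 2 * Real.log 4 * m := by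
  induction m with
  | zero =>
    have : PI 0 (2 ^ 0) = ∅ := by
      ext p
      simp only [mem_PI, Finset.notMem_empty, iff_false]
      rintro ⟨h1, h2, h3⟩
      have := h3.two_le
      omega
    rw [this]; simp
  | succ m ih =>
    rw [sum_PI (b := 2 ^ m) (by positivity) (Nat.pow_le_pow_right (by norm_num) (by omega))]
    have h1 : ∑ p ∈ PI (2 ^ m) (2 ^ (m + 1)), Real.log p / p ≤ 2 * Real.log 4 := by
      have h2 : ∑ p ∈ PI (2 ^ m) (2 ^ (m + 1)), Real.log p / p ≤
          ∑ p ∈ PI (2 ^ m) (2 ^ (m + 1)), (1 / 2 ^ m) * Real.log p := by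
        apply Finset.sum_le_sum
        intro p hp
        rw [mem_PI] at hp
        have hlt : (2 : ℝ) ^ m ≤ p := by exact_mod_cast hp.1.le
        have hp0 : (0 : ℝ) < 2 ^ m := by positivity
        rw [div_eq_mul_one_div, mul_comm]
        apply mul_le_mul_of_nonneg_right
        · exact one_div_le_one_div_of_le hp0 hlt
        · exact Real.log_nonneg (by exact_mod_cast hp.2.2.one_lt.le)
      refine h2.trans ?_
      rw [← Finset.mul_sum]
      have h3 : ∑ p ∈ PI (2 ^ m) (2 ^ (m + 1)), Real.log p ≤ Real.log 4 * (2 ^ (m + 1) : ℕ) := by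
        refine le_trans ?_ (theta_PI _)
        apply Finset.sum_le_sum_of_subset_of_nonneg
        · intro p hp
          rw [mem_PI] at hp ⊢
          exact ⟨hp.2.2.pos, hp.2.1, hp.2.2⟩
        · intro p hp _
          exact Real.log_nonneg (by exact_mod_cast (PI_prime hp).one_lt.le)
      calc (1 / 2 ^ m : ℝ) * ∑ p ∈ PI (2 ^ m) (2 ^ (m + 1)), Real.log p
          ≤ (1 / 2 ^ m : ℝ) * (Real.log 4 * (2 ^ (m + 1) : ℕ)) :=
            mul_le_mul_of_nonneg_left h3 (by positivity)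
        _ = 2 * Real.log 4 := by
            push_cast
            rw [pow_succ]
            field_simp
    push_cast
    linarith

theorem sum_log_div (x : ℕ) (hx : 2 ≤ x) :
    ∑ p ∈ PI 0 x, Real.log p / p ≤ 8 * Real.log x := by
  set m := Nat.log 2 x with hm
  have hx0 : x ≠ 0 := by omega
  have h1 : x < 2 ^ (m + 1) := Nat.lt_pow_succ_log_self (by norm_num) x
  have h2 : 2 ^ m ≤ x := Nat.pow_log_le_self 2 hx0
  have hm1 : 1 ≤ m := by
    rw [hm]
    exact (Nat.le_log_iff_pow_le (by norm_num) hx0).2 (by simpa using hx)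
  have h3 : ∑ p ∈ PI 0 x, Real.log p / p ≤ ∑ p ∈ PI 0 (2 ^ (m + 1)), Real.log p / p := by
    apply Finset.sum_le_sum_of_subset_of_nonneg
    · intro p hp
      rw [mem_PI] at hp ⊢
      exact ⟨hp.1, by omega, hp.2.2⟩
    · intro p hp _
      apply div_nonneg _ (by positivity)
      exact Real.log_nonneg (by exact_mod_cast (PI_prime hp).one_lt.le)
  have h4 := sum_log_div_pow (m + 1)
  have h5 : (m : ℝ) * Real.log 2 ≤ Real.log x := by
    rw [← Real.log_pow]
    apply Real.log_le_log (by positivity)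
    exact_mod_cast h2
  have h6 : Real.log 4 = 2 * Real.log 2 := by
    rw [show (4 : ℝ) = 2 ^ 2 by norm_num, Real.log_pow]; push_cast; ring
  have h7 : (0 : ℝ) < Real.log 2 := Real.log_pos (by norm_num)
  have h8 : (1 : ℝ) ≤ m := by exact_mod_cast hm1
  rw [h6] at h4
  push_cast at h4
  nlinarith

theorem zeta_upper {s : ℝ} (hs : 1 < s) :
    ∑' n : ℕ, ((n : ℝ) ^ s)⁻¹ ≤ 1 + 1 / (s - 1) := by
  have h := ZetaAsymptotics.zeta_limit_aux1 hs
  have hsum : Summable (fun n : ℕ => ((n : ℝ) ^ s)⁻¹) := Real.summable_nat_rpow_inv.2 hs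
  rw [hsum.tsum_eq_zero_add]
  have h0 : (((0 : ℕ) : ℝ) ^ s)⁻¹ = 0 := by
    rw [Nat.cast_zero, Real.zero_rpow (by linarith), inv_zero]
  rw [h0, zero_add]
  have h1 : ∑' n : ℕ, (((n + 1 : ℕ) : ℝ) ^ s)⁻¹ = ∑' n : ℕ, 1 / ((n : ℝ) + 1) ^ s := by
    apply tsum_congr
    intro n
    push_cast
    rw [one_div]
  rw [h1]
  have h2 : 0 ≤ ZetaAsymptotics.termTSum s :=
    tsum_nonneg fun n => ZetaAsymptotics.term_nonneg _ _
  have h3 : 0 ≤ s * ZetaAsymptotics.termTSum s := mul_nonneg (by linarith) h2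
  linarith

/-- `n ↦ n^{-s}` as a monoid hom. -/
noncomputable def powHom (s : ℝ) : ℕ →* ℝ where
  toFun n := ((n : ℝ) ^ s)⁻¹
  map_one' := by simp
  map_mul' m n := by
    push_cast
    rw [Real.mul_rpow (by positivity) (by positivity), mul_inv]

theorem prod_le_zeta (x : ℕ) {s : ℝ} (hs : 1 < s) :
    ∏ p ∈ PI 0 x, (1 - ((p : ℝ) ^ s)⁻¹)⁻¹ ≤ 1 + 1 / (s - 1) := by
  have hsum : Summable (powHom s) := Real.summable_nat_rpow_inv.2 hs
  have h := EulerProduct.prod_filter_prime_geometric_eq_tsum_factoredNumbers hsum (Finset.Ioc 0 x)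
  have h2 : ∏ p ∈ PI 0 x, (1 - ((p : ℝ) ^ s)⁻¹)⁻¹ =
      ∑' m : Nat.factoredNumbers (Finset.Ioc 0 x), powHom s m := h
  rw [h2]
  refine le_trans ?_ (zeta_upper hs)
  exact hsum.tsum_subtype_le (powHom s) _ (fun n => by
    change 0 ≤ ((n : ℝ) ^ s)⁻¹
    positivity)

/-- Mertens upper bound. -/
theorem inv_V_le (x : ℕ) (hx : 2 ≤ x) :
    (V x)⁻¹ ≤ Real.exp 16 * (1 + Real.log x) := by
  have hlx : 0 < Real.log x := Real.log_pos (by exact_mod_cast hx)
  set s : ℝ := 1 + 1 / Real.log x with hs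
  have hs1 : 1 < s := by
    have : 0 < 1 / Real.log x := by positivity
    linarith
  have h1 : ∀ p ∈ PI 0 x, (1 - 1 / (p : ℝ))⁻¹ ≤
      (1 - ((p : ℝ) ^ s)⁻¹)⁻¹ * Real.exp (2 / Real.log x * (Real.log p / p)) := by
    intro p hp
    have hpp := PI_prime hp
    have hp2 : (2 : ℝ) ≤ p := by exact_mod_cast hpp.two_le
    have hp0 : (0 : ℝ) < p := by linarith
    have hlp : 0 ≤ Real.log p := Real.log_nonneg (by linarith)
    have e1 : ((p : ℝ) ^ s)⁻¹ = (1 / p) * Real.exp (-(Real.log p / Real.log x)) := by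
      rw [hs, Real.rpow_add hp0, Real.rpow_one, mul_inv, ← Real.rpow_neg hp0.le,
        Real.rpow_def_of_pos hp0, one_div]
      have e0 : Real.log p * -(1 / Real.log x) = -(Real.log p / Real.log x) := by ring
      rw [← e0]
      simp only [one_div]
    have e2 : 1 - Real.log p / Real.log x ≤ Real.exp (-(Real.log p / Real.log x)) := by
      have := Real.add_one_le_exp (-(Real.log p / Real.log x))
      linarith
    have e3 : 1 / (p : ℝ) - (1 / Real.log x) * (Real.log p / p) ≤ ((p : ℝ) ^ s)⁻¹ := by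
      rw [e1]
      have := mul_le_mul_of_nonneg_left e2 (show (0 : ℝ) ≤ 1 / p by positivity)
      refine le_trans (le_of_eq ?_) this
      field_simp
    have hpos1 : 0 < 1 - 1 / (p : ℝ) := one_sub_inv_pos hpp
    have hhalf : 1 / (p : ℝ) ≤ 1 / 2 := one_div_le_one_div_of_le (by norm_num) hp2
    have hpos2 : 0 < 1 - ((p : ℝ) ^ s)⁻¹ := by
      have : ((p : ℝ) ^ s)⁻¹ < 1 := by
        apply inv_lt_one_of_one_lt₀
        exact Real.one_lt_rpow (by linarith) (by linarith)
      linarith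
    set t : ℝ := (1 / Real.log x) * (Real.log p / p) with ht
    have ht0 : 0 ≤ t := by positivity
    have e4 : 1 - ((p : ℝ) ^ s)⁻¹ ≤ (1 - 1 / (p : ℝ)) * Real.exp (2 / Real.log x * (Real.log p / p)) := by
      have e5 : 2 / Real.log x * (Real.log p / p) = 2 * t := by rw [ht]; ring
      rw [e5]
      have e6 := Real.add_one_le_exp (2 * t)
      have e7 : (1 - 1 / (p : ℝ)) * (2 * t + 1) ≤ (1 - 1 / (p : ℝ)) * Real.exp (2 * t) :=
        mul_le_mul_of_nonneg_left e6 hpos1.le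
      nlinarith
    rw [inv_mul_eq_div, le_div_iff₀ hpos2, inv_mul_le_iff₀ hpos1]
    exact e4
  have h2 : (V x)⁻¹ ≤ (∏ p ∈ PI 0 x, (1 - ((p : ℝ) ^ s)⁻¹)⁻¹) *
      ∏ p ∈ PI 0 x, Real.exp (2 / Real.log x * (Real.log p / p)) := by
    rw [V, ← Finset.prod_inv_distrib, ← Finset.prod_mul_distrib]
    apply Finset.prod_le_prod
    · intro p hp
      exact (inv_pos.2 (one_sub_inv_pos (PI_prime hp))).le
    · exact h1
  have h3 := prod_le_zeta x hs1
  have h4 : ∏ p ∈ PI 0 x, Real.exp (2 / Real.log x * (Real.log p / p)) ≤ Real.exp 16 := by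
    rw [← Real.exp_sum, ← Finset.mul_sum]
    apply Real.exp_le_exp.2
    have := mul_le_mul_of_nonneg_left (sum_log_div x hx)
      (show 0 ≤ 2 / Real.log x by positivity)
    refine this.trans (le_of_eq ?_)
    field_simp
    norm_num
  have h5 : 1 + 1 / (s - 1) = 1 + Real.log x := by
    rw [hs]; field_simp; ring
  rw [h5] at h3
  calc (V x)⁻¹ ≤ _ := h2
    _ ≤ (1 + Real.log x) * Real.exp 16 := by
      apply mul_le_mul h3 h4
      · exact Finset.prod_nonneg fun _ _ => (Real.exp_pos _).le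
      · linarith
    _ = _ := by ring

end Pool.Agent.MP923662
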