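import Mathlib

set_option autoImplicit false

open Finset

namespace Pool.Agent.MP923662

/-- truncated inclusion-exclusion sum -/
noncomputable def Bsum (P : Finset ℕ) (c : ℕ → ℝ) (m : ℕ) : ℝ :=
  ∑ D ∈ P.powerset, if D.card ≤ m then (-1 : ℝ) ^ D.card * ∏ p ∈ D, c p else 0

theorem Bsum_insert_succ {P : Finset ℕ} {q : ℕ} (hq : q ∉ P) (c : ℕ → ℝ) (m : ℕ) :
    Bsum (insert q P) c (m + 1) = Bsum P c (m + 1) - c q * Bsum P c m := by
  unfold Bsum
  rw [Finset.sum_powerset_insert hq, sub_eq_add_neg, Finset.mul_sum, ← Finset.sum_neg_distrib]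
  congr 1
  apply Finset.sum_congr rfl
  intro D hD
  have hqD : q ∉ D := fun h => hq (Finset.mem_powerset.1 hD h)
  rw [Finset.card_insert_of_notMem hqD, Finset.prod_insert hqD]
  by_cases h : D.card ≤ m
  · rw [if_pos (by omega), if_pos h, pow_succ]; ring
  · rw [if_neg (by omega), if_neg h]; ring

theorem Bsum_insert_zero {P : Finset ℕ} {q : ℕ} (hq : q ∉ P) (c : ℕ → ℝ) :
    Bsum (insert q P) c 0 = Bsum P c 0 := by
  unfold Bsum
  rw [Finset.sum_powerset_insert hq]
  have : ∑ D ∈ P.powerset, (if (insert q D).card ≤ 0 then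
      (-1 : ℝ) ^ (insert q D).card * ∏ p ∈ insert q D, c p else 0) = 0 := by
    apply Finset.sum_eq_zero
    intro D hD
    have hqD : q ∉ D := fun h => hq (Finset.mem_powerset.1 hD h)
    rw [Finset.card_insert_of_notMem hqD, if_neg (by omega)]
  rw [this, add_zero]

theorem Bsum_empty (c : ℕ → ℝ) (m : ℕ) : Bsum ∅ c m = 1 := by
  simp [Bsum]

/-- Bonferroni inequalities. -/
theorem bonferroni (P : Finset ℕ) (c : ℕ → ℝ) (h0 : ∀ p ∈ P, 0 ≤ c p) (h1 : ∀ p ∈ P, c p ≤ 1)
    (m : ℕ) :
    (Even m → ∏ p ∈ P, (1 - c p) ≤ Bsum P c m) ∧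
    (Odd m → Bsum P c m ≤ ∏ p ∈ P, (1 - c p)) := by
  induction P using Finset.induction_on generalizing m with
  | empty => simp [Bsum_empty]
  | insert q P hq ih =>
    have ih' := fun m => ih (fun p hp => h0 p (by simp [hp])) (fun p hp => h1 p (by simp [hp])) m
    have hq0 := h0 q (by simp)
    have hq1 := h1 q (by simp)
    have hprod : 0 ≤ ∏ p ∈ P, (1 - c p) :=
      Finset.prod_nonneg fun p hp => by
        have := h1 p (by simp [hp])
        linarith
    rw [Finset.prod_insert hq]
    rcases m with _ | m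
    · refine ⟨fun _ => ?_, fun h => absurd h (by simp)⟩
      rw [Bsum_insert_zero hq]
      have := (ih' 0).1 (by simp)
      nlinarith
    · rw [Bsum_insert_succ hq]
      constructor
      · intro hm
        have hm' : Odd m := by
          rw [Nat.even_add_one] at hm
          exact Nat.not_even_iff_odd.1 hm
        have h2 := (ih' (m + 1)).1 hm
        have h3 := (ih' m).2 hm'
        nlinarith
      · intro hm
        have hm' : Even m := by
          rw [Nat.odd_add_one] at hm
          exact Nat.not_odd_iff_even.1 hm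
        have h2 := (ih' (m + 1)).2 hm
        have h3 := (ih' m).1 hm'
        nlinarith

/-- sums of a nonnegative periodic function over an initial segment -/
theorem periodic_sum (F : ℕ → ℝ) (d : ℕ) (hd : 0 < d) (hper : ∀ n, F (n + d) = F n)
    (h0 : ∀ n, 0 ≤ F n) (l : ℕ) :
    |∑ n ∈ range l, F n - (l : ℝ) / d * ∑ n ∈ range d, F n| ≤ ∑ n ∈ range d, F n := by
  set M := ∑ n ∈ range d, F n with hM
  have hM0 : 0 ≤ M := Finset.sum_nonneg fun n _ => h0 n
  have hp : Function.Periodic F d := hper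
  have hq : ∀ q : ℕ, ∑ n ∈ range (d * q), F n = q * M := by
    intro q
    induction q with
    | zero => simp
    | succ q ih =>
      rw [Nat.mul_succ, Finset.sum_range_add, ih]
      have : ∑ x ∈ range d, F (d * q + x) = M := by
        rw [hM]
        apply Finset.sum_congr rfl
        intro n _
        have := hp.nat_mul q n
        rw [add_comm, mul_comm]
        simpa using this
      rw [this]; push_cast; ring
  set q := l / d
  set r := l % d
  have hl : l = d * q + r := (Nat.div_add_mod l d).symm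
  have hr : r < d := Nat.mod_lt _ hd
  have hsum : ∑ n ∈ range l, F n = q * M + ∑ n ∈ range r, F n := by
    conv_lhs => rw [hl]
    rw [Finset.sum_range_add, hq]
    congr 1
    apply Finset.sum_congr rfl
    intro n _
    have := hp.nat_mul q n
    rw [add_comm, mul_comm]
    simpa using this
  have hr0 : 0 ≤ ∑ n ∈ range r, F n := Finset.sum_nonneg fun n _ => h0 n
  have hr1 : ∑ n ∈ range r, F n ≤ M :=
    Finset.sum_le_sum_of_subset_of_nonneg (Finset.range_mono hr.le) fun n _ _ => h0 n
  have hdpos : (0 : ℝ) < d := by exact_mod_cast hd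
  have hld : (l : ℝ) / d = q + (r : ℝ) / d := by
    rw [hl]; push_cast; field_simp
  have hrd0 : 0 ≤ (r : ℝ) / d := by positivity
  have hrd1 : (r : ℝ) / d ≤ 1 := by
    rw [div_le_one hdpos]; exact_mod_cast hr.le
  rw [hsum, hld, abs_le]
  constructor <;> nlinarith

theorem crt_sum (F G : ℕ → ℝ) (d e : ℕ) (hd : 0 < d) (he : 0 < e) (hco : Nat.Coprime d e)
    (hF : ∀ n, F (n + d) = F n) (hG : ∀ n, G (n + e) = G n) :
    ∑ n ∈ range (d * e), F n * G n = (∑ n ∈ range d, F n) * ∑ n ∈ range e, G n := by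
  have hF' : ∀ n, F (n % d) = F n := fun n => Function.Periodic.map_mod_nat (f := F) hF n
  have hG' : ∀ n, G (n % e) = G n := fun n => Function.Periodic.map_mod_nat (f := G) hG n
  rw [Finset.sum_mul_sum, ← Finset.sum_product']
  refine Finset.sum_bij' (fun n _ => (n % d, n % e))
    (fun x _ => ((Nat.chineseRemainder hco x.1 x.2 : { k // k ≡ x.1 [MOD d] ∧ k ≡ x.2 [MOD e] }) : ℕ))
    ?_ ?_ ?_ ?_ ?_
  · intro n hn
    simp only [Finset.mem_product, Finset.mem_range]
    exact ⟨Nat.mod_lt _ hd, Nat.mod_lt _ he⟩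
  · intro x hx
    rw [Finset.mem_range]
    exact Nat.chineseRemainder_lt_mul hco _ _ hd.ne' he.ne'
  · intro n hn
    rw [Finset.mem_range] at hn
    have h1 := (Nat.chineseRemainder hco (n % d) (n % e)).2
    have h2 := Nat.chineseRemainder_lt_mul hco (n % d) (n % e) hd.ne' he.ne'
    have h3 : ((Nat.chineseRemainder hco (n % d) (n % e) : { k // k ≡ n % d [MOD d] ∧ k ≡ n % e [MOD e] }) : ℕ)
        ≡ n [MOD d * e] := by
      rw [← Nat.modEq_and_modEq_iff_modEq_mul hco]
      exact ⟨h1.1.trans (Nat.mod_modEq n d), h1.2.trans (Nat.mod_modEq n e)⟩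
    exact Nat.ModEq.eq_of_lt_of_lt h3 h2 hn
  · rintro ⟨a, b⟩ hx
    simp only [Finset.mem_product, Finset.mem_range] at hx
    have h1 := (Nat.chineseRemainder hco a b).2
    ext
    · have := h1.1
      rw [Nat.ModEq, Nat.mod_eq_of_lt hx.1] at this
      exact this
    · have := h1.2
      rw [Nat.ModEq, Nat.mod_eq_of_lt hx.2] at this
      exact this
  · intro n hn
    rw [hF', hG']

theorem period_prod (D : Finset ℕ) (hD : ∀ p ∈ D, p.Prime) (c : ℕ → ℕ → ℝ)
    (hper : ∀ p ∈ D, ∀ n, c p (n + p) = c p n) (n : ℕ) :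
    ∏ p ∈ D, c p (n + ∏ q ∈ D, q) = ∏ p ∈ D, c p n := by
  apply Finset.prod_congr rfl
  intro p hp
  obtain ⟨k, hk⟩ := Finset.dvd_prod_of_mem (fun q => q) hp
  have hk' : ∏ q ∈ D, q = p * k := hk
  rw [hk']
  have hpp : Function.Periodic (c p) p := hper p hp
  have := hpp.nat_mul k n
  rw [mul_comm]
  simpa using this

theorem sum_period_prod (D : Finset ℕ) (hD : ∀ p ∈ D, p.Prime) (c : ℕ → ℕ → ℝ)
    (hper : ∀ p ∈ D, ∀ n, c p (n + p) = c p n) :
    ∑ n ∈ range (∏ p ∈ D, p), ∏ p ∈ D, c p n = ∏ p ∈ D, ∑ n ∈ range p, c p n := by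
  induction D using Finset.induction_on with
  | empty => simp
  | insert q D hq ih =>
    have ih' := ih (fun p hp => hD p (by simp [hp])) (fun p hp => hper p (by simp [hp]))
    have hqp : q.Prime := hD q (by simp)
    have hco : Nat.Coprime q (∏ p ∈ D, p) := by
      apply Nat.Coprime.prod_right
      intro p hp
      have hpp := hD p (by simp [hp])
      rw [Nat.coprime_primes hqp hpp]
      rintro rfl
      exact hq hp
    have hpos : 0 < ∏ p ∈ D, p := Finset.prod_pos fun p hp => (hD p (by simp [hp])).pos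
    rw [Finset.prod_insert hq, Finset.prod_insert hq, ← ih',
      ← crt_sum (fun n => c q n) (fun n => ∏ p ∈ D, c p n) q (∏ p ∈ D, p) hqp.pos hpos hco
        (hper q (by simp))
        (fun n => period_prod D (fun p hp => hD p (by simp [hp])) c
          (fun p hp => hper p (by simp [hp])) n)]
    apply Finset.sum_congr rfl
    intro n _
    rw [Finset.prod_insert hq]

/-- Brun's pure sieve for weights. -/
theorem sieve (P : Finset ℕ) (hP : ∀ p ∈ P, p.Prime) (c : ℕ → ℕ → ℝ)
    (hper : ∀ p ∈ P, ∀ n, c p (n + p) = c p n) (h0 : ∀ p ∈ P, ∀ n, 0 ≤ c p n)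
    (h1 : ∀ p ∈ P, ∀ n, c p n ≤ 1) (C : ℕ → ℝ) (hC : ∀ p ∈ P, ∑ n ∈ range p, c p n = C p)
    (S B : ℝ) (hS : ∑ p ∈ P, C p / p ≤ S) (hB : ∑ p ∈ P, C p ≤ B) (hB1 : 1 ≤ B)
    (l m : ℕ) (hm : Even m) :
    ∑ n ∈ range l, ∏ p ∈ P, (1 - c p n) ≤
      l * (∏ p ∈ P, (1 - C p / p) + Real.exp (3 * S - (m + 1))) + Real.exp 1 * B ^ m := by
  have hC0 : ∀ p ∈ P, 0 ≤ C p := by
    intro p hp
    rw [← hC p hp]
    exact Finset.sum_nonneg fun n _ => h0 p hp n
  have hB0 : 0 < B := by linarith
  -- step 1
  have s1 : ∑ n ∈ range l, ∏ p ∈ P, (1 - c p n) ≤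
      ∑ n ∈ range l, Bsum P (fun p => c p n) m := by
    apply Finset.sum_le_sum
    intro n _
    exact (bonferroni P (fun p => c p n) (fun p hp => h0 p hp n) (fun p hp => h1 p hp n) m).1 hm
  -- step 2 : exchange and use the periodic lemma
  have s2 : ∑ n ∈ range l, Bsum P (fun p => c p n) m ≤
      ∑ D ∈ P.powerset, ((if D.card ≤ m then (-1 : ℝ) ^ D.card * (l * ∏ p ∈ D, (C p / p)) else 0)
        + if D.card ≤ m then ∏ p ∈ D, C p else 0) := by
    unfold Bsum
    rw [Finset.sum_comm]
    apply Finset.sum_le_sum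
    intro D hD
    have hDP := Finset.mem_powerset.1 hD
    by_cases hc : D.card ≤ m
    · simp only [if_pos hc]
      rw [← Finset.mul_sum]
      have hpos : 0 < ∏ p ∈ D, p := Finset.prod_pos fun p hp => (hP p (hDP hp)).pos
      have key := periodic_sum (fun n => ∏ p ∈ D, c p n) (∏ p ∈ D, p) hpos
        (fun n => period_prod D (fun p hp => hP p (hDP hp)) c (fun p hp => hper p (hDP hp)) n)
        (fun n => Finset.prod_nonneg fun p hp => h0 p (hDP hp) n) l
      rw [sum_period_prod D (fun p hp => hP p (hDP hp)) c (fun p hp => hper p (hDP hp))] at key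
      have e1 : ∏ p ∈ D, ∑ n ∈ range p, c p n = ∏ p ∈ D, C p :=
        Finset.prod_congr rfl fun p hp => hC p (hDP hp)
      rw [e1] at key
      have e2 : (l : ℝ) / ((∏ p ∈ D, p : ℕ) : ℝ) * ∏ p ∈ D, C p = l * ∏ p ∈ D, (C p / p) := by
        rw [Finset.prod_div_distrib]
        push_cast
        ring
      rw [e2] at key
      rw [abs_le] at key
      rcases neg_one_pow_eq_or ℝ D.card with h | h
      · rw [h]; linarith [key.2]
      · rw [h]; linarith [key.1]
    · simp only [if_neg hc]
      simp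
  rw [Finset.sum_add_distrib] at s2
  -- full expansion
  have full : ∏ p ∈ P, (1 - C p / p) =
      ∑ D ∈ P.powerset, (-1 : ℝ) ^ D.card * ∏ p ∈ D, (C p / p) := by
    have : ∏ p ∈ P, (1 - C p / p) = ∏ p ∈ P, (1 + -(C p / (p : ℝ))) :=
      Finset.prod_congr rfl fun p _ => by ring
    rw [this, Finset.prod_one_add]
    apply Finset.sum_congr rfl
    intro D _
    rw [Finset.prod_neg]
  have hx0 : ∀ D ∈ P.powerset, 0 ≤ ∏ p ∈ D, (C p / (p : ℝ)) := by
    intro D hD
    have hDP := Finset.mem_powerset.1 hD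
    exact Finset.prod_nonneg fun p hp => div_nonneg (hC0 p (hDP hp)) (by positivity)
  have s3 : ∑ D ∈ P.powerset, (if D.card ≤ m then
      (-1 : ℝ) ^ D.card * (l * ∏ p ∈ D, (C p / p)) else 0) ≤
      l * (∏ p ∈ P, (1 - C p / p)) +
        l * ∑ D ∈ P.powerset, (if D.card ≤ m then 0 else ∏ p ∈ D, (C p / (p : ℝ))) := by
    rw [full, Finset.mul_sum, Finset.mul_sum, ← Finset.sum_add_distrib]
    apply Finset.sum_le_sum
    intro D hD
    have hx := hx0 D hD
    by_cases hc : D.card ≤ m
    · simp only [if_pos hc]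
      apply le_of_eq
      ring
    · simp only [if_neg hc]
      have hl : (0 : ℝ) ≤ l := by positivity
      have hlx := mul_nonneg hl hx
      rcases neg_one_pow_eq_or ℝ D.card with h | h
      · rw [h]; nlinarith
      · rw [h]; nlinarith
  have hS0 : 0 ≤ S := le_trans (Finset.sum_nonneg fun p hp => div_nonneg (hC0 p hp) (by positivity)) hS
  have s4 : ∑ D ∈ P.powerset, (if D.card ≤ m then 0 else ∏ p ∈ D, (C p / (p : ℝ))) ≤
      Real.exp (3 * S - (m + 1)) := by
    have h2 : ∑ D ∈ P.powerset, (if D.card ≤ m then 0 else ∏ p ∈ D, (C p / (p : ℝ))) ≤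
        ∑ D ∈ P.powerset, Real.exp (-(m + 1)) * ∏ p ∈ D, (Real.exp 1 * (C p / (p : ℝ))) := by
      apply Finset.sum_le_sum
      intro D hD
      have hx := hx0 D hD
      rw [Finset.prod_mul_distrib, Finset.prod_const, ← mul_assoc]
      by_cases hc : D.card ≤ m
      · rw [if_pos hc]; positivity
      · rw [if_neg hc]
        have h3 : (1 : ℝ) ≤ Real.exp (-(m + 1)) * Real.exp 1 ^ D.card := by
          rw [← Real.exp_nat_mul, ← Real.exp_add]
          apply Real.one_le_exp
          have : ((m : ℝ) + 1) ≤ D.card := by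
            have : m + 1 ≤ D.card := by omega
            exact_mod_cast this
          linarith
        exact le_mul_of_one_le_left hx h3
    refine h2.trans ?_
    rw [← Finset.mul_sum, ← Finset.prod_one_add]
    have h4 : ∏ p ∈ P, (1 + Real.exp 1 * (C p / (p : ℝ))) ≤ Real.exp (3 * S) := by
      have h5 : ∏ p ∈ P, (1 + Real.exp 1 * (C p / (p : ℝ))) ≤
          ∏ p ∈ P, Real.exp (Real.exp 1 * (C p / (p : ℝ))) := by
        apply Finset.prod_le_prod
        · intro p hp
          have := div_nonneg (hC0 p hp) (show (0 : ℝ) ≤ p by positivity)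
          positivity
        · intro p hp
          rw [add_comm]
          exact Real.add_one_le_exp _
      refine h5.trans ?_
      rw [← Real.exp_sum, ← Finset.mul_sum]
      apply Real.exp_le_exp.2
      have he : Real.exp 1 ≤ 3 := by
        have := Real.exp_one_lt_d9
        linarith
      exact mul_le_mul he hS
        (Finset.sum_nonneg fun p hp => div_nonneg (hC0 p hp) (by positivity)) (by norm_num)
    calc Real.exp (-(m + 1)) * ∏ p ∈ P, (1 + Real.exp 1 * (C p / (p : ℝ)))
        ≤ Real.exp (-(m + 1)) * Real.exp (3 * S) :=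
          mul_le_mul_of_nonneg_left h4 (Real.exp_pos _).le
      _ = Real.exp (3 * S - (m + 1)) := by rw [← Real.exp_add]; congr 1; ring
  have s5 : ∑ D ∈ P.powerset, (if D.card ≤ m then ∏ p ∈ D, C p else 0) ≤
      Real.exp 1 * B ^ m := by
    have h2 : ∑ D ∈ P.powerset, (if D.card ≤ m then ∏ p ∈ D, C p else 0) ≤
        ∑ D ∈ P.powerset, B ^ m * ∏ p ∈ D, (C p / B) := by
      apply Finset.sum_le_sum
      intro D hD
      have hDP := Finset.mem_powerset.1 hD
      have hx : 0 ≤ ∏ p ∈ D, C p := Finset.prod_nonneg fun p hp => hC0 p (hDP hp)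
      rw [Finset.prod_div_distrib, Finset.prod_const]
      by_cases hc : D.card ≤ m
      · rw [if_pos hc, mul_div_assoc', mul_comm, mul_div_assoc]
        apply le_mul_of_one_le_right hx
        rw [one_le_div (by positivity)]
        exact pow_le_pow_right₀ hB1 hc
      · rw [if_neg hc]; positivity
    refine h2.trans ?_
    rw [← Finset.mul_sum, ← Finset.prod_one_add, mul_comm]
    apply mul_le_mul_of_nonneg_right _ (by positivity)
    have h5 : ∏ p ∈ P, (1 + C p / B) ≤ ∏ p ∈ P, Real.exp (C p / B) := by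
      apply Finset.prod_le_prod
      · intro p hp
        have := hC0 p hp
        positivity
      · intro p hp
        rw [add_comm]
        exact Real.add_one_le_exp _
    refine h5.trans ?_
    rw [← Real.exp_sum]
    apply Real.exp_le_exp.2
    rw [← Finset.sum_div, div_le_one hB0]
    exact hB
  have hl : (0 : ℝ) ≤ l := by positivity
  have s6 := mul_le_mul_of_nonneg_left s4 hl
  calc ∑ n ∈ range l, ∏ p ∈ P, (1 - c p n) ≤ _ := s1
    _ ≤ _ := s2
    _ ≤ _ := by linarith

end Pool.Agent.MP923662
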