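import Pool.Agent.MP_923662_nt.Mertens
import Pool.Agent.MP_923662_nt.Sieve

set_option autoImplicit false

open Finset

namespace Pool.Agent.MP923662

def W (j : ℕ) : ℕ := 2 ^ (2 ^ j)

def Z (j : ℕ) : ℕ := 2 ^ (2 ^ j * j ^ 2)

theorem W_pos (j : ℕ) : 0 < W j := by unfold W; positivity

theorem Z_pos (j : ℕ) : 0 < Z j := by unfold Z; positivity

theorem two_le_W (j : ℕ) : 2 ≤ W j := by
  unfold W
  calc 2 = 2 ^ 1 := by norm_num
    _ ≤ 2 ^ 2 ^ j := Nat.pow_le_pow_right (by norm_num) (Nat.one_le_two_pow)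

theorem W_mono {i j : ℕ} (h : i ≤ j) : W i ≤ W j := by
  unfold W
  exact Nat.pow_le_pow_right (by norm_num) (Nat.pow_le_pow_right (by norm_num) h)

theorem Z_mono {i j : ℕ} (h : i ≤ j) : Z i ≤ Z j := by
  unfold Z
  apply Nat.pow_le_pow_right (by norm_num)
  apply Nat.mul_le_mul
  · exact Nat.pow_le_pow_right (by norm_num) h
  · exact Nat.pow_le_pow_left h 2

theorem W_le_Z {j : ℕ} (h : 1 ≤ j) : W j ≤ Z j := by
  unfold W Z
  apply Nat.pow_le_pow_right (by norm_num)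
  have : 1 ≤ j ^ 2 := Nat.one_le_pow _ _ h
  nlinarith [Nat.one_le_two_pow (n := j)]

theorem log_W (j : ℕ) : Real.log (W j) = 2 ^ j * Real.log 2 := by
  unfold W
  push_cast
  rw [Real.log_pow]
  push_cast
  rfl

theorem log_Z (j : ℕ) : Real.log (Z j) = 2 ^ j * j ^ 2 * Real.log 2 := by
  unfold Z
  push_cast
  rw [Real.log_pow]
  push_cast
  rfl

theorem exp_neg_two_le {x : ℝ} (h0 : 0 ≤ x) (h1 : x ≤ 1 / 2) : Real.exp (-(2 * x)) ≤ 1 - x := by
  rw [Real.exp_neg]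
  have h2 := Real.add_one_le_exp (2 * x)
  have h3 : (0 : ℝ) < 2 * x + 1 := by linarith
  calc (Real.exp (2 * x))⁻¹ ≤ (2 * x + 1)⁻¹ := inv_anti₀ h3 h2
    _ ≤ 1 - x := by
      rw [inv_le_iff_one_le_mul₀ h3]
      nlinarith

/-- sum of reciprocals of primes -/
theorem sum_inv_le_log (x : ℕ) : ∑ p ∈ PI 0 x, 1 / (p : ℝ) ≤ Real.log ((V x)⁻¹) := by
  rw [V, ← Finset.prod_inv_distrib, Real.log_prod]
  · apply Finset.sum_le_sum
    intro p hp
    have h := one_sub_inv_pos (PI_prime hp)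
    rw [Real.log_inv]
    have := Real.log_le_sub_one_of_pos h
    linarith
  · intro p hp
    exact (inv_pos.2 (one_sub_inv_pos (PI_prime hp))).ne'

theorem sum_inv_W {j : ℕ} (hj : 60 ≤ j) : ∑ p ∈ PI 0 (W j), 1 / (p : ℝ) ≤ j := by
  refine (sum_inv_le_log _).trans ?_
  have h1 := inv_V_le (W j) (two_le_W j)
  have h2 : Real.log ((V (W j))⁻¹) ≤ Real.log (Real.exp 16 * (1 + Real.log (W j))) :=
    Real.log_le_log (inv_pos.2 (V_pos _)) h1
  refine h2.trans ?_
  rw [log_W]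
  have hl2 : 0 < Real.log 2 := Real.log_pos (by norm_num)
  have hl2' : Real.log 2 < 0.6931471808 := Real.log_two_lt_d9
  have h3 : 1 + 2 ^ j * Real.log 2 ≤ 2 ^ (j + 1) := by
    have : (1 : ℝ) ≤ 2 ^ j := one_le_pow₀ (by norm_num)
    rw [pow_succ]; nlinarith
  have h4 : 0 < 1 + 2 ^ j * Real.log 2 := by positivity
  rw [Real.log_mul (Real.exp_pos _).ne' h4.ne', Real.log_exp]
  have h5 : Real.log (1 + 2 ^ j * Real.log 2) ≤ (j + 1) * Real.log 2 := by
    have := Real.log_le_log h4 h3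
    rw [Real.log_pow] at this
    push_cast at this
    exact this
  have h6 : (60 : ℝ) ≤ j := by exact_mod_cast hj
  nlinarith

theorem pow_ineq {j : ℕ} (hj : 60 ≤ j) :
    (2 ^ j + 1) * (10 * j) + (2 + 6 * j) ≤ 2 ^ (j - 1) * (j - 1) ^ 2 := by
  obtain ⟨i, rfl⟩ : ∃ i, j = i + 1 := ⟨j - 1, by omega⟩
  rw [Nat.add_sub_cancel]
  have hi : 59 ≤ i := by omega
  have h1 : 1 ≤ 2 ^ i := Nat.one_le_two_pow
  have h2 : (2 ^ (i + 1) + 1) * (10 * (i + 1)) + (2 + 6 * (i + 1)) ≤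
      2 ^ i * (20 * (i + 1) + 10 * (i + 1) + 2 + 6 * (i + 1)) := by
    rw [pow_succ]
    nlinarith
  refine h2.trans ?_
  apply Nat.mul_le_mul_left
  nlinarith

/-- The sieve at scale `j`. -/
theorem sieve_scale {j : ℕ} (hj : 60 ≤ j) (c : ℕ → ℕ → ℝ)
    (hper : ∀ p ∈ PI 0 (W j), ∀ n, c p (n + p) = c p n)
    (h0 : ∀ p ∈ PI 0 (W j), ∀ n, 0 ≤ c p n)
    (h1 : ∀ p ∈ PI 0 (W j), ∀ n, c p n ≤ 1)
    (hC2 : ∀ p ∈ PI 0 (W j), ∑ n ∈ range p, c p n ≤ 2)
    (hC1 : ∀ p ∈ PI 0 (W j), p < 5 → ∑ n ∈ range p, c p n ≤ 1)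
    (l : ℕ) (hl : Z (j - 1) ≤ l) :
    ∑ n ∈ range l, ∏ p ∈ PI 0 (W j), (1 - c p n) ≤
      3 * l * ∏ p ∈ PI 0 (W j), (1 - (∑ n ∈ range p, c p n) / p) := by
  set C : ℕ → ℝ := fun p => ∑ n ∈ range p, c p n with hC
  set P := PI 0 (W j) with hP
  have hC0 : ∀ p ∈ P, 0 ≤ C p := fun p hp => Finset.sum_nonneg fun n _ => h0 p hp n
  set S : ℝ := ∑ p ∈ P, C p / p with hS
  have hS0 : 0 ≤ S := Finset.sum_nonneg fun p hp => div_nonneg (hC0 p hp) (by positivity)
  have hS1 : S ≤ 2 * j := by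
    calc S ≤ ∑ p ∈ P, 2 * (1 / (p : ℝ)) := by
          apply Finset.sum_le_sum
          intro p hp
          rw [mul_one_div]
          exact div_le_div_of_nonneg_right (hC2 p hp) (by positivity)
      _ ≤ 2 * j := by
          rw [← Finset.mul_sum]
          have := sum_inv_W hj
          linarith
  have hB : ∑ p ∈ P, C p ≤ 2 * W j := by
    calc ∑ p ∈ P, C p ≤ ∑ p ∈ P, (2 : ℝ) := Finset.sum_le_sum fun p hp => hC2 p hp
      _ = 2 * (P.card : ℝ) := by rw [Finset.sum_const, nsmul_eq_mul]; ring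
      _ ≤ 2 * W j := by
          have h2 : P.card ≤ W j := by
            calc P.card ≤ (Finset.Ioc 0 (W j)).card := Finset.card_filter_le _ _
              _ = W j := by simp
          have : (P.card : ℝ) ≤ W j := by exact_mod_cast h2
          linarith
  have hB1 : (1 : ℝ) ≤ 2 * W j := by
    have : (2 : ℝ) ≤ W j := by exact_mod_cast two_le_W j
    linarith
  have hx : ∀ p ∈ P, 0 ≤ C p / p ∧ C p / p ≤ 1 / 2 := by
    intro p hp
    have hpp := PI_prime hp
    have hp2 : (2 : ℝ) ≤ p := by exact_mod_cast hpp.two_le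
    refine ⟨div_nonneg (hC0 p hp) (by positivity), ?_⟩
    rw [div_le_iff₀ (by linarith)]
    rcases lt_or_ge p 5 with h | h
    · have := hC1 p hp h
      have h3 : C p ≤ 1 := this
      linarith
    · have := hC2 p hp
      have h3 : C p ≤ 2 := this
      have h4 : (5 : ℝ) ≤ p := by exact_mod_cast h
      linarith
  have hprod : Real.exp (-(2 * S)) ≤ ∏ p ∈ P, (1 - C p / p) := by
    rw [hS, Finset.mul_sum, ← Finset.sum_neg_distrib, Real.exp_sum]
    apply Finset.prod_le_prod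
    · intro p _; positivity
    · intro p hp
      exact exp_neg_two_le (hx p hp).1 (hx p hp).2
  have main := sieve P (fun p hp => PI_prime hp) c hper h0 h1 C (fun p _ => rfl) S (2 * W j)
    le_rfl hB hB1 l (10 * j) ⟨5 * j, by ring⟩
  refine main.trans ?_
  set Pr : ℝ := ∏ p ∈ P, (1 - C p / p) with hPr
  have hl0 : (0 : ℝ) ≤ l := by positivity
  have t1 : Real.exp (3 * S - ((10 * j : ℕ) + 1)) ≤ Pr := by
    refine le_trans ?_ hprod
    apply Real.exp_le_exp.2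
    push_cast
    linarith
  have t2 : Real.exp 1 * (2 * (W j : ℝ)) ^ (10 * j) ≤ l * Pr := by
    have e1 : Real.exp (-(4 * (j : ℝ))) ≤ Pr := by
      refine le_trans ?_ hprod
      apply Real.exp_le_exp.2
      linarith
    have e2 : (Z (j - 1) : ℝ) ≤ l := by exact_mod_cast hl
    have e3 : Real.exp 1 * (2 * (W j : ℝ)) ^ (10 * j) ≤ Z (j - 1) * Real.exp (-(4 * (j : ℝ))) := by
      rw [Real.exp_neg, ← div_eq_mul_inv, le_div_iff₀ (Real.exp_pos _)]
      have f1 : Real.exp 1 ≤ 2 ^ 2 := by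
        have := Real.exp_one_lt_d9
        linarith
      have f2 : Real.exp (4 * (j : ℝ)) ≤ 2 ^ (6 * j) := by
        have : Real.exp (4 * (j : ℝ)) = (Real.exp 1) ^ (4 * j) := by
          rw [← Real.exp_nat_mul]; push_cast; ring_nf
        rw [this, pow_mul, pow_mul]
        apply pow_le_pow_left₀ (by positivity)
        have h3 : Real.exp 1 ≤ 2.7182818286 := Real.exp_one_lt_d9.le
        calc Real.exp 1 ^ 4 ≤ 2.7182818286 ^ 4 := pow_le_pow_left₀ (Real.exp_pos _).le h3 4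
          _ ≤ 2 ^ 6 := by norm_num
      have f3 : (2 * (W j : ℝ)) ^ (10 * j) = 2 ^ ((2 ^ j + 1) * (10 * j)) := by
        unfold W
        push_cast
        rw [← pow_succ', ← pow_mul]
      calc Real.exp 1 * (2 * (W j : ℝ)) ^ (10 * j) * Real.exp (4 * (j : ℝ))
          ≤ 2 ^ 2 * 2 ^ ((2 ^ j + 1) * (10 * j)) * 2 ^ (6 * j) := by
            rw [f3]
            apply mul_le_mul _ f2 (Real.exp_pos _).le (by positivity)
            exact mul_le_mul_of_nonneg_right f1 (by positivity)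
        _ = 2 ^ ((2 ^ j + 1) * (10 * j) + (2 + 6 * j)) := by
            rw [← pow_add, ← pow_add]; congr 1; ring
        _ ≤ (Z (j - 1) : ℝ) := by
            unfold Z
            push_cast
            exact pow_le_pow_right₀ (by norm_num) (pow_ineq hj)
    calc Real.exp 1 * (2 * (W j : ℝ)) ^ (10 * j) ≤ Z (j - 1) * Real.exp (-(4 * (j : ℝ))) := e3
      _ ≤ l * Pr := mul_le_mul e2 e1 (Real.exp_pos _).le hl0
  have t3 := mul_le_mul_of_nonneg_left t1 hl0
  nlinarith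

end Pool.Agent.MP923662
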