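import Pool.Agent.MP_923662_nt.Inner

set_option autoImplicit false

open Finset

namespace Pool.Agent.MP923662

theorem K_factor {x z : ℝ} (hx : 0 < x) (hx5 : x ≤ 1 / 5) (hz0 : 0 ≤ z) (hz2 : z ≤ 2) :
    0 < 1 - z * (1 + 2 * x) * x ∧
    (1 - z * (1 + 2 * x) * x)⁻¹ ≤ (1 - x)⁻¹ * Real.exp ((z - 1) * x + 16 * x ^ 2) := by
  have hzx : z * x ≤ 2 / 5 := by nlinarith
  have hzx0 : 0 ≤ z * x := by positivity
  have hD : 0 < 1 - z * (1 + 2 * x) * x := by nlinarith
  refine ⟨hD, ?_⟩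
  have h1x : 0 < 1 - x := by linarith
  rw [inv_mul_eq_div, le_div_iff₀ h1x, inv_mul_le_iff₀ hD]
  have e1 := Real.add_one_le_exp ((z - 1) * x + 16 * x ^ 2)
  have e2 : (1 - z * (1 + 2 * x) * x) * ((z - 1) * x + 16 * x ^ 2 + 1) ≤
      (1 - z * (1 + 2 * x) * x) * Real.exp ((z - 1) * x + 16 * x ^ 2) :=
    mul_le_mul_of_nonneg_left e1 hD.le
  refine le_trans ?_ e2
  have e3 : (1 - z * (1 + 2 * x) * x) * ((z - 1) * x + 16 * x ^ 2 + 1) - (1 - x) =
      x ^ 2 * (16 - z ^ 2 - z - x * (14 * z + 2 * z ^ 2) - 32 * z * x ^ 2) := by ring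
  have hz22 : z ^ 2 ≤ 4 := by nlinarith
  have a1 : x * (14 * z + 2 * z ^ 2) ≤ (1 / 5) * 36 := by
    apply mul_le_mul hx5 (by nlinarith) (by positivity) (by norm_num)
  have a2 : 32 * z * x ^ 2 ≤ 32 * 2 * (1 / 5) ^ 2 := by
    apply mul_le_mul (by linarith) _ (by positivity) (by norm_num)
    exact pow_le_pow_left₀ hx.le hx5 2
  have e4 : 0 ≤ 16 - z ^ 2 - z - x * (14 * z + 2 * z ^ 2) - 32 * z * x ^ 2 := by
    norm_num at a2
    nlinarith
  have := mul_nonneg (sq_nonneg x) e4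
  linarith

theorem sum_inv_sq_PI {Y : ℕ} (hY : 1 ≤ Y) (x : ℕ) : ∑ p ∈ PI Y x, (1 / (p : ℝ)) ^ 2 ≤ 1 := by
  rcases le_or_gt Y x with h | h
  · calc ∑ p ∈ PI Y x, (1 / (p : ℝ)) ^ 2 ≤ ∑ p ∈ Finset.Ioc Y x, (1 / (p : ℝ)) ^ 2 :=
          Finset.sum_le_sum_of_subset_of_nonneg (Finset.filter_subset _ _)
            (fun _ _ _ => by positivity)
      _ = ∑ p ∈ Finset.Ioc Y x, ((p : ℝ) ^ 2)⁻¹ := by
          apply Finset.sum_congr rfl
          intro p _
          rw [one_div, inv_pow]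
      _ ≤ (Y : ℝ)⁻¹ - (x : ℝ)⁻¹ := sum_Ioc_inv_sq_le_sub (by omega) h
      _ ≤ 1 := by
          have h1 : (Y : ℝ)⁻¹ ≤ 1 := by
            apply inv_le_one_of_one_le₀
            exact_mod_cast hY
          have h2 : 0 ≤ (x : ℝ)⁻¹ := by positivity
          linarith
  · have : PI Y x = ∅ := by
      ext p; simp only [mem_PI, Finset.notMem_empty, iff_false]; omega
    rw [this]; simp

theorem Om_prime (Y j : ℕ) {p : ℕ} (hp : p.Prime) :
    Om Y j p = if p ∈ PI Y (W j) then 1 else 0 := by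
  unfold Om
  rw [hp.factorization]
  simp [Finsupp.single_apply]

theorem Om_one (Y j : ℕ) : Om Y j 1 = 0 := by
  unfold Om
  simp

theorem hh_one (Y j : ℕ) : hh Y j 1 = 1 := by
  unfold hh
  apply Finset.prod_eq_one
  intro p hp
  rw [if_neg]
  intro h
  exact (PI_prime hp).one_lt.ne' (Nat.dvd_one.1 h)

theorem one_le_hh (Y j u : ℕ) : 1 ≤ hh Y j u := by
  unfold hh
  have h : ∀ p ∈ PI Y (W j), (1 : ℝ) ≤ (if p ∣ u then 1 + 2 / (p : ℝ) else 1) := by
    intro p _
    split_ifs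
    · have : (0 : ℝ) ≤ 2 / p := by positivity
      linarith
    · exact le_rfl
  have := Finset.prod_le_prod (s := PI Y (W j)) (f := fun _ => (1 : ℝ))
    (fun _ _ => zero_le_one) h
  simpa using this

theorem hh_mul_prime (Y j m : ℕ) {p : ℕ} (hp : p.Prime) :
    hh Y j (p * m) ≤ (if p ∈ PI Y (W j) then 1 + 2 / (p : ℝ) else 1) * hh Y j m := by
  have h1 : (if p ∈ PI Y (W j) then 1 + 2 / (p : ℝ) else 1) =
      ∏ q ∈ PI Y (W j), (if q = p then 1 + 2 / (q : ℝ) else 1) := by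
    rw [Finset.prod_ite_eq']
  rw [h1]
  unfold hh
  rw [← Finset.prod_mul_distrib]
  apply Finset.prod_le_prod
  · intro q _
    split_ifs <;> positivity
  · intro q hq
    have h2 : (0 : ℝ) ≤ 2 / q := by positivity
    by_cases hqp : q = p
    · subst hqp
      rw [if_pos (Dvd.intro m rfl), if_pos rfl]
      split_ifs <;> nlinarith
    · have hd : q ∣ p * m ↔ q ∣ m := by
        rw [(PI_prime hq).dvd_mul]
        constructor
        · rintro (h | h)
          · exact absurd ((Nat.prime_dvd_prime_iff_eq (PI_prime hq) hp).1 h) hqp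
          · exact h
        · exact fun h => Or.inr h
      simp only [hd, if_neg hqp, one_mul]
      exact le_rfl

theorem rough_iff {Y x n : ℕ} (hn : n ∈ Icc 1 x) : rough Y n ↔ n.primeFactors ⊆ PI Y x := by
  rw [Finset.mem_Icc] at hn
  constructor
  · intro h p hp
    have hpp := Nat.prime_of_mem_primeFactors hp
    have hpd := Nat.dvd_of_mem_primeFactors hp
    exact mem_PI.2 ⟨h p hpp hpd, (Nat.le_of_dvd (by omega) hpd).trans hn.2, hpp⟩
  · intro h p hp hpn
    have : p ∈ n.primeFactors := Nat.mem_primeFactors.2 ⟨hp, hpn, by omega⟩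
    exact (mem_PI.1 (h this)).1

/-- Rankin for rough numbers. -/
theorem rough_sum {Y j x : ℕ} (hY : 4 ≤ Y) (hx : Y ≤ x) (hW : W j ≤ x) {z : ℝ}
    (hz0 : 0 ≤ z) (hz2 : z ≤ 2) :
    ∑ n ∈ (Icc 1 x).filter (fun n => rough Y n), z ^ Om Y j n * hh Y j n / n ≤
      V Y * (V x)⁻¹ * Real.exp ((z - 1) * PP Y j + 16) := by
  set g : ℕ → ℝ := fun n => z ^ Om Y j n * hh Y j n / n with hg
  set G : ℕ → ℝ := fun p => if p ∈ PI Y (W j) then z * (1 + 2 / (p : ℝ)) / p else 1 / (p : ℝ) with hG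
  have e0 : (Icc 1 x).filter (fun n => rough Y n) =
      (Icc 1 x).filter (fun n => n.primeFactors ⊆ PI Y x) := by
    apply Finset.filter_congr
    intro n hn
    exact rough_iff hn
  rw [e0]
  have hp5 : ∀ p ∈ PI Y x, (5 : ℝ) ≤ p := by
    intro p hp
    have : 5 ≤ p := by have := (mem_PI.1 hp).1; omega
    exact_mod_cast this
  have hGform : ∀ p ∈ PI Y x, 0 ≤ G p ∧ G p < 1 ∧ (1 - G p)⁻¹ ≤ (1 - 1 / (p : ℝ))⁻¹ *
      Real.exp (if p ∈ PI Y (W j) then (z - 1) * (1 / p) + 16 * (1 / (p : ℝ)) ^ 2 else 0) := by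
    intro p hp
    have h5 := hp5 p hp
    have hx0 : (0 : ℝ) < 1 / p := by positivity
    have hx1 : 1 / (p : ℝ) ≤ 1 / 5 := one_div_le_one_div_of_le (by norm_num) h5
    simp only [hG]
    by_cases hpW : p ∈ PI Y (W j)
    · simp only [if_pos hpW]
      have hK := K_factor hx0 hx1 hz0 hz2
      have e1 : z * (1 + 2 / (p : ℝ)) / p = z * (1 + 2 * (1 / (p : ℝ))) * (1 / p) := by ring
      rw [e1]
      refine ⟨by positivity, by linarith [hK.1], hK.2⟩
    · simp only [if_neg hpW]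
      refine ⟨by positivity, by linarith, ?_⟩
      rw [Real.exp_zero, mul_one]
  have main := rankin (PI Y x) (fun p hp => PI_prime hp) g G ?_ ?_ (fun p hp => (hGform p hp).1)
    (fun p hp => (hGform p hp).2.1) ?_ x
  · refine main.trans ?_
    have h1 : ∏ p ∈ PI Y x, (1 - G p)⁻¹ ≤ ∏ p ∈ PI Y x, ((1 - 1 / (p : ℝ))⁻¹ *
      Real.exp (if p ∈ PI Y (W j) then (z - 1) * (1 / p) + 16 * (1 / (p : ℝ)) ^ 2 else 0)) := by
      apply Finset.prod_le_prod
      · intro p hp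
        have := (hGform p hp).2.1
        exact (inv_pos.2 (by linarith)).le
      · intro p hp
        exact (hGform p hp).2.2
    refine h1.trans ?_
    rw [Finset.prod_mul_distrib, ← Real.exp_sum]
    have h2 : ∏ p ∈ PI Y x, (1 - 1 / (p : ℝ))⁻¹ = V Y * (V x)⁻¹ := by
      have e : V x = V Y * ∏ p ∈ PI Y x, (1 - 1 / (p : ℝ)) := by
        unfold V
        exact prod_PI (by omega) hx _
      rw [e, Finset.prod_inv_distrib, mul_inv, ← mul_assoc, mul_inv_cancel₀ (V_pos Y).ne',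
        one_mul]
    rw [h2]
    apply mul_le_mul_of_nonneg_left _ (mul_nonneg (V_pos Y).le (inv_pos.2 (V_pos x)).le)
    apply Real.exp_le_exp.2
    rw [← Finset.sum_filter]
    have h3 : (PI Y x).filter (fun p => p ∈ PI Y (W j)) = PI Y (W j) := by
      ext p
      simp only [Finset.mem_filter, mem_PI]
      constructor
      · rintro ⟨_, h⟩; exact h
      · rintro ⟨a, b, c⟩; exact ⟨⟨a, by omega, c⟩, a, b, c⟩
    rw [h3, Finset.sum_add_distrib, ← Finset.mul_sum, ← Finset.mul_sum]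
    have h4 := sum_inv_sq_PI (Y := Y) (by omega) (W j)
    unfold PP
    linarith
  · intro n
    simp only [hg]
    have := hh_nonneg Y j n
    positivity
  · simp only [hg, Om_one, hh_one]
    norm_num
  · intro p hp m hm
    have hpp := PI_prime hp
    simp only [hg, hG]
    rw [Om_mul Y j hpp.ne_zero (by omega), pow_add, Om_prime Y j hpp]
    have h1 := hh_mul_prime Y j m hpp
    have hp0 : (0 : ℝ) < p := by exact_mod_cast hpp.pos
    have hm0 : (0 : ℝ) < m := by exact_mod_cast hm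
    have hzm : 0 ≤ z ^ Om Y j m := by positivity
    push_cast
    by_cases hpW : p ∈ PI Y (W j)
    · simp only [if_pos hpW] at h1 ⊢
      rw [pow_one]
      calc z * z ^ Om Y j m * hh Y j (p * m) / (↑p * ↑m)
          ≤ z * z ^ Om Y j m * ((1 + 2 / ↑p) * hh Y j m) / (↑p * ↑m) := by
            apply div_le_div_of_nonneg_right _ (by positivity)
            exact mul_le_mul_of_nonneg_left h1 (by positivity)
        _ = z * (1 + 2 / ↑p) / ↑p * (z ^ Om Y j m * hh Y j m / ↑m) := by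
            field_simp
    · simp only [if_neg hpW] at h1 ⊢
      rw [pow_zero, one_mul]
      rw [one_mul] at h1
      calc z ^ Om Y j m * hh Y j (p * m) / (↑p * ↑m)
          ≤ z ^ Om Y j m * hh Y j m / (↑p * ↑m) := by
            apply div_le_div_of_nonneg_right _ (by positivity)
            exact mul_le_mul_of_nonneg_left h1 (by positivity)
        _ = 1 / ↑p * (z ^ Om Y j m * hh Y j m / ↑m) := by
            field_simp

theorem rough_sum' {Y j x : ℕ} (hY : 4 ≤ Y) (hx : Y ≤ x) (hW : W j ≤ x) {z : ℝ}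
    (hz0 : 0 ≤ z) (hz2 : z ≤ 2) :
    ∑ n ∈ (Icc 1 x).filter (fun n => rough Y n), z ^ Om Y j n / n ≤
      V Y * (V x)⁻¹ * Real.exp ((z - 1) * PP Y j + 16) := by
  refine le_trans ?_ (rough_sum hY hx hW hz0 hz2)
  apply Finset.sum_le_sum
  intro n _
  apply div_le_div_of_nonneg_right _ (by positivity)
  exact le_mul_of_one_le_right (by positivity) (one_le_hh Y j n)

/-- Rankin for all numbers. -/
theorem all_sum {Y j x : ℕ} (hY : 4 ≤ Y) (hW : W j ≤ x) {z : ℝ}
    (hz0 : 0 ≤ z) (hz2 : z ≤ 2) :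
    ∑ n ∈ Icc 1 x, z ^ Om Y j n / n ≤
      (V x)⁻¹ * Real.exp ((z - 1) * PP Y j + 16) := by
  set g : ℕ → ℝ := fun n => z ^ Om Y j n / n with hg
  set G : ℕ → ℝ := fun p => if p ∈ PI Y (W j) then z / p else 1 / (p : ℝ) with hG
  have e0 : Icc 1 x = (Icc 1 x).filter (fun n => n.primeFactors ⊆ PI 0 x) := by
    ext n
    simp only [Finset.mem_filter, Finset.mem_Icc]
    constructor
    · intro h
      refine ⟨h, fun p hp => ?_⟩
      have hpp := Nat.prime_of_mem_primeFactors hp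
      have hpd := Nat.dvd_of_mem_primeFactors hp
      exact mem_PI.2 ⟨hpp.pos, (Nat.le_of_dvd (by omega) hpd).trans h.2, hpp⟩
    · exact fun h => h.1
  rw [e0]
  have hGform : ∀ p ∈ PI 0 x, 0 ≤ G p ∧ G p < 1 ∧ (1 - G p)⁻¹ ≤ (1 - 1 / (p : ℝ))⁻¹ *
      Real.exp (if p ∈ PI Y (W j) then (z - 1) * (1 / p) + 16 * (1 / (p : ℝ)) ^ 2 else 0) := by
    intro p hp
    have h2 : (2 : ℝ) ≤ p := by exact_mod_cast (PI_prime hp).two_le
    have hx0 : (0 : ℝ) < 1 / p := by positivity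
    simp only [hG]
    by_cases hpW : p ∈ PI Y (W j)
    · simp only [if_pos hpW]
      have h5 : (5 : ℝ) ≤ p := by
        have : 5 ≤ p := by have := (mem_PI.1 hpW).1; omega
        exact_mod_cast this
      have hx1 : 1 / (p : ℝ) ≤ 1 / 5 := one_div_le_one_div_of_le (by norm_num) h5
      have hK := K_factor hx0 hx1 hz0 hz2
      have e1 : z / (p : ℝ) ≤ z * (1 + 2 * (1 / (p : ℝ))) * (1 / p) := by
        rw [div_eq_mul_one_div]
        apply mul_le_mul_of_nonneg_right _ hx0.le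
        nlinarith
      refine ⟨by positivity, by linarith [hK.1], le_trans ?_ hK.2⟩
      apply inv_anti₀ hK.1
      linarith
    · simp only [if_neg hpW]
      have hx1 : 1 / (p : ℝ) ≤ 1 / 2 := one_div_le_one_div_of_le (by norm_num) h2
      refine ⟨by positivity, by linarith, ?_⟩
      rw [Real.exp_zero, mul_one]
  have main := rankin (PI 0 x) (fun p hp => PI_prime hp) g G ?_ ?_ (fun p hp => (hGform p hp).1)
    (fun p hp => (hGform p hp).2.1) ?_ x
  · refine main.trans ?_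
    have h1 : ∏ p ∈ PI 0 x, (1 - G p)⁻¹ ≤ ∏ p ∈ PI 0 x, ((1 - 1 / (p : ℝ))⁻¹ *
      Real.exp (if p ∈ PI Y (W j) then (z - 1) * (1 / p) + 16 * (1 / (p : ℝ)) ^ 2 else 0)) := by
      apply Finset.prod_le_prod
      · intro p hp
        have := (hGform p hp).2.1
        exact (inv_pos.2 (by linarith)).le
      · intro p hp
        exact (hGform p hp).2.2
    refine h1.trans ?_
    rw [Finset.prod_mul_distrib, ← Real.exp_sum, Finset.prod_inv_distrib]
    apply mul_le_mul_of_nonneg_left _ (inv_pos.2 (V_pos x)).le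
    apply Real.exp_le_exp.2
    rw [← Finset.sum_filter]
    have h3 : (PI 0 x).filter (fun p => p ∈ PI Y (W j)) = PI Y (W j) := by
      ext p
      simp only [Finset.mem_filter, mem_PI]
      constructor
      · rintro ⟨_, h⟩; exact h
      · rintro ⟨a, b, c⟩; exact ⟨⟨by omega, by omega, c⟩, a, b, c⟩
    rw [h3, Finset.sum_add_distrib, ← Finset.mul_sum, ← Finset.mul_sum]
    have h4 := sum_inv_sq_PI (Y := Y) (by omega) (W j)
    unfold PP
    linarith
  · intro n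
    simp only [hg]
    positivity
  · simp only [hg, Om_one]
    norm_num
  · intro p hp m hm
    have hpp := PI_prime hp
    simp only [hg, hG]
    rw [Om_mul Y j hpp.ne_zero (by omega), pow_add, Om_prime Y j hpp]
    have hp0 : (0 : ℝ) < p := by exact_mod_cast hpp.pos
    have hm0 : (0 : ℝ) < m := by exact_mod_cast hm
    push_cast
    by_cases hpW : p ∈ PI Y (W j)
    · simp only [if_pos hpW]
      rw [pow_one]
      apply le_of_eq
      field_simp
    · simp only [if_neg hpW]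
      rw [pow_zero, one_mul]
      apply le_of_eq
      field_simp

theorem exp_neg_le_one_sub {x : ℝ} (h0 : 0 ≤ x) (h1 : x ≤ 1 / 2) :
    Real.exp (-(x + x ^ 2)) ≤ 1 - x := by
  rw [Real.exp_neg]
  have h2 := Real.quadratic_le_exp_of_nonneg (x := x + x ^ 2) (by positivity)
  have h4 : (0 : ℝ) < 1 + (x + x ^ 2) + (x + x ^ 2) ^ 2 / 2 := by positivity
  calc (Real.exp (x + x ^ 2))⁻¹ ≤ (1 + (x + x ^ 2) + (x + x ^ 2) ^ 2 / 2)⁻¹ := inv_anti₀ h4 h2
    _ ≤ 1 - x := by
      rw [inv_le_iff_one_le_mul₀ h4]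
      have e : (1 - x) * (1 + (x + x ^ 2) + (x + x ^ 2) ^ 2 / 2) - 1 =
          x ^ 2 * (1 - x - x ^ 2 - x ^ 3) / 2 := by ring
      have h5 : 0 ≤ 1 - x - x ^ 2 - x ^ 3 := by
        have a : x ^ 2 ≤ 1 / 4 := by nlinarith
        have b : x ^ 3 ≤ 1 / 8 := by
          calc x ^ 3 = x * x ^ 2 := by ring
            _ ≤ (1 / 2) * (1 / 4) := mul_le_mul h1 a (by positivity) (by norm_num)
            _ = 1 / 8 := by norm_num
        linarith
      have := mul_nonneg (sq_nonneg x) h5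
      linarith

theorem V_W_lower {Y j : ℕ} (hY : 4 ≤ Y) (h : Y ≤ W j) :
    V Y * Real.exp (-(PP Y j + 1)) ≤ V (W j) := by
  have e : V (W j) = V Y * ∏ p ∈ PI Y (W j), (1 - 1 / (p : ℝ)) := by
    unfold V
    exact prod_PI (by omega) h _
  rw [e]
  apply mul_le_mul_of_nonneg_left _ (V_pos Y).le
  have h1 : ∏ p ∈ PI Y (W j), Real.exp (-((1 / (p : ℝ)) + (1 / (p : ℝ)) ^ 2)) ≤
      ∏ p ∈ PI Y (W j), (1 - 1 / (p : ℝ)) := by
    apply Finset.prod_le_prod
    · intro p _; positivity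
    · intro p hp
      have h2 : (2 : ℝ) ≤ p := by exact_mod_cast (PI_prime hp).two_le
      exact exp_neg_le_one_sub (by positivity) (one_div_le_one_div_of_le (by norm_num) h2)
  refine le_trans ?_ h1
  rw [← Real.exp_sum, Finset.sum_neg_distrib, Finset.sum_add_distrib]
  apply Real.exp_le_exp.2
  have := sum_inv_sq_PI (Y := Y) (by omega) (W j)
  unfold PP
  linarith

theorem two_pow_le {Y j : ℕ} (hY : 4 ≤ Y) (h : Y ≤ W j) :
    (2 : ℝ) ^ j ≤ 4 * (V Y)⁻¹ * Real.exp (PP Y j) := by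
  have h1 := V_mul_log_le (W j) (by have := two_le_W j; omega)
  rw [log_W] at h1
  have h2 := V_W_lower hY h
  have hl2 : 0.6931471803 < Real.log 2 := Real.log_two_gt_d9
  have hVY := V_pos Y
  have hp : (0 : ℝ) < 2 ^ j * Real.log 2 := by positivity
  have h3 : V Y * Real.exp (-(PP Y j + 1)) * (2 ^ j * Real.log 2) ≤ 1 :=
    le_trans (mul_le_mul_of_nonneg_right h2 hp.le) h1
  have he : Real.exp (-(PP Y j + 1)) = (Real.exp (PP Y j))⁻¹ * (Real.exp 1)⁻¹ := by
    rw [← Real.exp_neg, ← Real.exp_neg, ← Real.exp_add]; congr 1; ring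
  rw [he] at h3
  have hE := Real.exp_pos (PP Y j)
  have hE1 := Real.exp_pos 1
  have hE2 := Real.exp_one_lt_d9
  have h4 : 2 ^ j * Real.log 2 ≤ Real.exp 1 * (Real.exp (PP Y j) * (V Y)⁻¹) := by
    have : V Y * ((Real.exp (PP Y j))⁻¹ * (Real.exp 1)⁻¹) * (2 ^ j * Real.log 2) =
        (2 ^ j * Real.log 2) / (Real.exp 1 * (Real.exp (PP Y j) * (V Y)⁻¹)) := by
      field_simp
    rw [this, div_le_one (by positivity)] at h3
    exact h3
  have h5 : 0 < Real.exp (PP Y j) * (V Y)⁻¹ := by positivity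
  have h6 : Real.exp 1 * (Real.exp (PP Y j) * (V Y)⁻¹) ≤
      4 * Real.log 2 * (Real.exp (PP Y j) * (V Y)⁻¹) := by
    apply mul_le_mul_of_nonneg_right _ h5.le
    linarith
  have h7 : 2 ^ j * Real.log 2 ≤ (4 * (Real.exp (PP Y j) * (V Y)⁻¹)) * Real.log 2 := by linarith
  have h8 := le_of_mul_le_mul_right h7 (by linarith)
  linarith

theorem V_W_upper (j : ℕ) : V (W j) ≤ 2 * (1 / 2 ^ j) := by
  have h1 := V_mul_log_le (W j) (by have := two_le_W j; omega)
  rw [log_W] at h1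
  have hl2 : 0.6931471803 < Real.log 2 := Real.log_two_gt_d9
  have hV := V_pos (W j)
  have hp : (0 : ℝ) < 2 ^ j := by positivity
  rw [mul_one_div, le_div_iff₀ hp]
  nlinarith [mul_pos hV hp]

theorem V_anti {a b : ℕ} (h : a ≤ b) : V b ≤ V a := by
  have e : V b = V a * ∏ p ∈ PI a b, (1 - 1 / (p : ℝ)) := by
    unfold V
    exact prod_PI (by omega) h _
  rw [e]
  apply mul_le_of_le_one_right (V_pos a).le
  apply Finset.prod_le_one
  · intro p hp
    exact (one_sub_inv_pos (PI_prime hp)).le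
  · intro p _
    have : (0 : ℝ) ≤ 1 / p := by positivity
    linarith

theorem inv_V_Z {j : ℕ} (hj : 1 ≤ j) : (V (Z j))⁻¹ ≤ 2 * Real.exp 16 * (2 ^ j * j ^ 2) := by
  have h2 : 2 ≤ Z j := (two_le_W j).trans (W_le_Z hj)
  have h1 := inv_V_le (Z j) h2
  rw [log_Z] at h1
  have hl2 : Real.log 2 < 0.6931471808 := Real.log_two_lt_d9
  have hp1 : (1 : ℝ) ≤ 2 ^ j := one_le_pow₀ (by norm_num)
  have hp2 : (1 : ℝ) ≤ (j : ℝ) ^ 2 := by
    have : (1 : ℝ) ≤ j := by exact_mod_cast hj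
    exact one_le_pow₀ this
  have hp3 : (1 : ℝ) ≤ 2 ^ j * (j : ℝ) ^ 2 := one_le_mul_of_one_le_of_one_le hp1 hp2
  have hE := Real.exp_pos 16
  have h3 : 1 + 2 ^ j * (j : ℝ) ^ 2 * Real.log 2 ≤ 2 * (2 ^ j * (j : ℝ) ^ 2) := by nlinarith
  calc (V (Z j))⁻¹ ≤ Real.exp 16 * (1 + 2 ^ j * (j : ℝ) ^ 2 * Real.log 2) := h1
    _ ≤ Real.exp 16 * (2 * (2 ^ j * (j : ℝ) ^ 2)) := mul_le_mul_of_nonneg_left h3 hE.le
    _ = _ := by ring

end Pool.Agent.MP923662
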